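import Pool.Agent.H99.EA.Def
import Pool.Agent.H68.HDA.Alp
import Pool.Agent.H68.HDA.Gro
import Pool.Agent.H68.HD.S3
import Pool.Agent.H68.HD.S3b

/-!
# EA Tq: the inequality (T) in the time unit `1/q`, and the rotation defect for real times
-/

set_option autoImplicit false

open MeasureTheory Filter
open scoped RealInnerProductSpace

namespace Pool.Agent.H99.EA

open Pool.Agent.H33.AM (E Tor pr IsPeriodic)
open Pool.Agent.H68.HD
open Pool.Agent.H68.HDA (Aut Lq alpha_q growth_q)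
open Pool.Agent.H99.EC (D DS)

variable {n : ℕ}

/-- The inequality (T). -/
theorem co_Tq {L : E n → E n → ℝ → ℝ} {κ K : ℝ} (hL : Growth L κ K) (ha : Aut L) {q : ℕ}
    (hq : 0 < q) (c : E n) {f : ℕ → E n} {k : ℕ} {z : Fin n → ℤ} (hf : Cl f k z) (p : E n) :
    ⟪p, zv z⟫ - (k : ℝ) / q * (alpha L (c + p) - alpha L c) ≤ cost (Sq L c q) f k := by
  obtain ⟨K', hL'⟩ := growth_q hL hq
  have h1 := n1 hL' (c + p) f k z hf
  rw [cost_shift hL' c p (alpha L c / q), hf.2, add_sub_cancel_left, alpha_q hL ha hq] at h1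
  have h2 : (k : ℝ) / q * (alpha L (c + p) - alpha L c) =
      k * (alpha L (c + p) / q - alpha L c / q) := by ring
  rw [h2]
  unfold Sq
  linarith

/-- The rotation defect for the real time `T`. -/
theorem cyr {h : E n} {K' p₀ B T : ℝ} (hp : 0 < p₀) (hK : 0 < K') (hT : 0 < T) {Q : E n → ℝ}
    (hQ : ∀ p, ‖p‖ ≤ p₀ → Q p ≤ ⟪h, p⟫ + K' * ‖p‖ ^ 2) {z : Fin n → ℤ}
    (hx : ∀ p, ⟪p, zv z⟫ - T * Q p ≤ B) :
    ‖zv z - T • h‖ ^ 2 ≤ 4 * B * K' * T ∨ T * K' * p₀ ^ 2 ≤ B := by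
  obtain ⟨w, hw⟩ : ∃ w : E n, w = zv z - T • h := ⟨_, rfl⟩
  have H : ∀ p : E n, ‖p‖ ≤ p₀ → ⟪p, w⟫ ≤ B + T * K' * ‖p‖ ^ 2 := by
    intro p hpp
    have h1 := hx p
    have h2 := mul_le_mul_of_nonneg_left (hQ p hpp) hT.le
    rw [hw, inner_sub_right, real_inner_smul_right, real_inner_comm h p]
    nlinarith
  rw [← hw]
  have hKT : 0 < 2 * K' * T := by positivity
  by_cases hw1 : ‖w‖ ≤ 2 * K' * T * p₀
  · left
    have h1 : ‖(1 / (2 * K' * T)) • w‖ ≤ p₀ := by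
      rw [norm_smul, Real.norm_of_nonneg (by positivity), one_div, inv_mul_le_iff₀ hKT]
      exact hw1
    have h2 := H _ h1
    rw [norm_smul, Real.norm_of_nonneg (by positivity), real_inner_smul_left,
      real_inner_self_eq_norm_sq] at h2
    have h3 : 1 / (2 * K' * T) * ‖w‖ ^ 2 = 2 * (‖w‖ ^ 2 / (4 * K' * T)) := by
      field_simp
      ring
    have h4 : T * K' * (1 / (2 * K' * T) * ‖w‖) ^ 2 = ‖w‖ ^ 2 / (4 * K' * T) := by
      field_simp
      ring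
    rw [h3, h4] at h2
    have h5 : ‖w‖ ^ 2 / (4 * K' * T) ≤ B := by linarith
    rw [div_le_iff₀ (by positivity)] at h5
    linarith
  · right
    push Not at hw1
    have hw0 : 0 < ‖w‖ := lt_trans (by positivity) hw1
    have h1 : ‖(p₀ / ‖w‖) • w‖ = p₀ := by
      rw [norm_smul, Real.norm_of_nonneg (by positivity)]
      field_simp
    have h2 := H _ h1.le
    rw [h1, real_inner_smul_left, real_inner_self_eq_norm_sq] at h2
    have h3 : p₀ / ‖w‖ * ‖w‖ ^ 2 = p₀ * ‖w‖ := by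
      field_simp
    rw [h3] at h2
    have h4 : p₀ * (2 * K' * T * p₀) < p₀ * ‖w‖ := mul_lt_mul_of_pos_left hw1 hp
    nlinarith

end Pool.Agent.H99.EA
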