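import Pool.Agent.H99.EA.Spd
import Pool.Agent.H99.EA.Tq

/-!
# EA Adv: uniform advance of the chains of small defect in a direction in which the rotation vector is not zero

Let `a` be a chain of `W q` steps, `DS ≤ 1`.  Choose `z` with `‖a (W q) - (a 0 + zv z)‖ ≤ √n` (`exists_near`) and a chain of `q` steps from
`a (W q)` to `a 0 + zv z` of cost `≤ M + 1` (`exists_chain_le` (HDA.Uni), `Pot.ub` of `Sp L c (alpha L c)` for `R = √n`).  The closed chain of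
`(W + 1) q` steps has cost `≤ B₂ = 1 + B + M + 1` (`osc_sol`).  `co_Tq`, `cyr` with `T = W + 1`, `Q p = alpha L (c + p) - alpha L c`: for `W` large
(`T K' p₀² > B₂`) `‖zv z - T h‖² ≤ 4 B₂ K' T`, so `|z_i₀| ≥ T |h_i₀| - √(4 B₂ K' T) ≥ 1 + √n` for `W` large (`|z_i₀ - T h_i₀| ≤ ‖zv z - T h‖`).
`|a (W q) i₀ - a 0 i₀| ≥ |z_i₀| - √n ≥ 1`.
-/

set_option autoImplicit false

open MeasureTheory Filter
open scoped RealInnerProductSpace

namespace Pool.Agent.H99.EA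

open Pool.Agent.H33.AM (E Tor pr IsPeriodic)
open Pool.Agent.H68.HD
open Pool.Agent.H68.HDA (Aut Lq)
open Pool.Agent.H99.EC (D DS)

variable {n : ℕ}

private theorem adv_cost {S : E n → E n → ℝ} {u : E n → ℝ} (a : ℕ → E n) (N : ℕ) :
    cost S a N = DS S u a N + (u (a N) - u (a 0)) := by
  unfold cost DS D
  rw [← Finset.sum_range_sub (fun i => u (a i)) N, ← Finset.sum_add_distrib]
  exact Finset.sum_congr rfl fun i _ => by ring

private theorem adv_cat {S : E n → E n → ℝ} (a g : ℕ → E n) (N q : ℕ) (hg : g 0 = a N) :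
    ∃ f : ℕ → E n, f 0 = a 0 ∧ f (N + q) = g q ∧ cost S f (N + q) = cost S a N + cost S g q := by
  obtain ⟨f, hf⟩ : ∃ f : ℕ → E n, f = fun i => if i ≤ N then a i else g (i - N) := ⟨_, rfl⟩
  have h0 : ∀ i, i ≤ N → f i = a i := fun i hi => by
    rw [hf]
    exact if_pos hi
  have h1 : ∀ j, f (N + j) = g j := by
    intro j
    rcases Nat.eq_zero_or_pos j with rfl | hj
    · rw [add_zero, h0 N le_rfl, hg]
    · have h2 : f (N + j) = g (N + j - N) := by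
        rw [hf]
        exact if_neg (by omega)
      rw [h2, Nat.add_sub_cancel_left]
  refine ⟨f, h0 0 (Nat.zero_le _), h1 q, ?_⟩
  unfold cost
  rw [Finset.sum_range_add]
  congr 1
  · refine Finset.sum_congr rfl fun i hi => ?_
    have h2 := Finset.mem_range.1 hi
    rw [h0 i (by omega), h0 (i + 1) (by omega)]
  · refine Finset.sum_congr rfl fun j _ => ?_
    rw [h1 j, add_assoc, h1 (j + 1)]

theorem advance {L : E n → E n → ℝ → ℝ} {κ K : ℝ} (hL : Growth L κ K) (ha : Aut L) {c h : E n}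
    {K' p₀ : ℝ} (hp₀ : 0 < p₀) (hK : 0 < K')
    (hup : ∀ p, ‖p‖ ≤ p₀ → alpha L (c + p) - alpha L c - ⟪h, p⟫ ≤ K' * ‖p‖ ^ 2) {i₀ : Fin n}
    (hi : h i₀ ≠ 0) :
    ∃ W : ℕ, 0 < W ∧ ∀ q : ℕ, 0 < q → ∀ u : E n → ℝ, Sol (Sq L c q) u →
      ∀ a : ℕ → E n, DS (Sq L c q) u a (W * q) ≤ 1 → 1 ≤ |a (W * q) i₀ - a 0 i₀| := by
  obtain ⟨B, hB, hosc⟩ := osc_sol hL ha c
  obtain ⟨M, hM⟩ := Sp_ub hL c (alpha L c) (Real.sqrt n)
  obtain ⟨η, hη⟩ : ∃ η : ℝ, η = |h i₀| := ⟨_, rfl⟩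
  have hη0 : 0 < η := by
    rw [hη]
    exact abs_pos.2 hi
  obtain ⟨B₂, hB₂⟩ : ∃ B₂ : ℝ, B₂ = B + |M| + 2 := ⟨_, rfl⟩
  have hB₂0 : 0 < B₂ := by
    rw [hB₂]
    positivity
  have hKp : 0 < K' * p₀ ^ 2 := by positivity
  obtain ⟨W, hW⟩ := exists_nat_gt (max (B₂ / (K' * p₀ ^ 2))
    ((1 + Real.sqrt n + 2 * B₂ * K' / η) * (2 / η)))
  have hW1 : B₂ / (K' * p₀ ^ 2) < W := lt_of_le_of_lt (le_max_left _ _) hW
  have hW2 : (1 + Real.sqrt n + 2 * B₂ * K' / η) * (2 / η) < W :=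
    lt_of_le_of_lt (le_max_right _ _) hW
  have hW0 : (0 : ℝ) < W := lt_of_le_of_lt (by positivity) hW1
  refine ⟨W, by exact_mod_cast hW0, ?_⟩
  intro q hq u hu a hDS
  obtain ⟨z', hz', -⟩ := exists_near (a (W * q) - a 0)
  have hz : ‖(a 0 + zv (-z')) - a (W * q)‖ ≤ Real.sqrt n := by
    rw [zv_neg, ← norm_neg]
    have h1 : -(a 0 + -zv z' - a (W * q)) = a (W * q) - a 0 + zv z' := by abel
    rw [h1]
    exact hz'
  obtain ⟨z, hzd⟩ : ∃ z : Fin n → ℤ, z = -z' := ⟨_, rfl⟩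
  rw [← hzd] at hz
  obtain ⟨g, hg0, hg1, hg2⟩ := Pool.Agent.H68.HDA.exists_chain_le hL ha hq c (alpha L c)
    (a (W * q)) (a 0 + zv z) 1 one_pos
  have hM1 := hM (a (W * q)) (a 0 + zv z) hz
  obtain ⟨f, hf0, hf1, hf2⟩ := adv_cat (S := Sq L c q) a g (W * q) q hg0
  have hcl : Cl f (W * q + q) z := ⟨by omega, by rw [hf1, hg1, hf0]⟩
  have hcost : cost (Sq L c q) f (W * q + q) ≤ B₂ := by
    have h1 := adv_cost (S := Sq L c q) (u := u) a (W * q)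
    have h2 := hosc q hq u hu (a 0) (a (W * q))
    have h3 := le_abs_self M
    have h4 : cost (Sq L c q) g q ≤ Sp L c (alpha L c) (a (W * q)) (a 0 + zv z) + 1 := hg2
    rw [hf2, hB₂]
    linarith
  have hq' : (0 : ℝ) < q := by exact_mod_cast hq
  have hT : ((W * q + q : ℕ) : ℝ) / q = W + 1 := by
    push_cast
    field_simp
  have hc := cyr (h := h) (B := B₂) (T := (W : ℝ) + 1) hp₀ hK (by positivity)
    (Q := fun p => alpha L (c + p) - alpha L c) (fun p hp => by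
      have h1 := hup p hp
      linarith) (z := z) (fun p => by
      have h1 := co_Tq hL ha hq c hcl p
      rw [hT] at h1
      exact h1.trans hcost)
  have h1 : ¬ ((W : ℝ) + 1) * K' * p₀ ^ 2 ≤ B₂ := by
    rw [div_lt_iff₀ hKp] at hW1
    intro h2
    nlinarith
  have h2 := hc.resolve_right h1
  have h3 : ‖zv z - ((W : ℝ) + 1) • h‖ ≤ 2 * B₂ * K' / η + η * (W + 1) / 2 := by
    have h4 : 0 ≤ 2 * B₂ * K' / η + η * (W + 1) / 2 := by positivity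
    refine (pow_le_pow_iff_left₀ (norm_nonneg _) h4 two_ne_zero).1 ?_
    have h5 : 4 * (2 * B₂ * K' / η) * (η * (W + 1) / 2) = 4 * B₂ * K' * (W + 1) := by
      field_simp
    nlinarith [sq_nonneg (2 * B₂ * K' / η - η * (W + 1) / 2)]
  have h4 : ‖(zv z - ((W : ℝ) + 1) • h) i₀‖ ≤ ‖zv z - ((W : ℝ) + 1) • h‖ :=
    PiLp.norm_apply_le _ _
  have h5 : ‖((a 0 + zv z) - a (W * q)) i₀‖ ≤ ‖(a 0 + zv z) - a (W * q)‖ :=
    PiLp.norm_apply_le _ _
  have h6 : (zv z) i₀ = (z i₀ : ℝ) := rfl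
  have h7 : (zv z - ((W : ℝ) + 1) • h) i₀ = z i₀ - (W + 1) * h i₀ := by
    simp [h6]
  have h8 : ((a 0 + zv z) - a (W * q)) i₀ = z i₀ - (a (W * q) i₀ - a 0 i₀) := by
    simp only [PiLp.sub_apply, PiLp.add_apply, h6]
    ring
  rw [h7, Real.norm_eq_abs] at h4
  rw [h8, Real.norm_eq_abs] at h5
  have h9 : ((W : ℝ) + 1) * η ≤ |(z i₀ : ℝ)| + |z i₀ - ((W : ℝ) + 1) * h i₀| := by
    have h10 : ((W : ℝ) + 1) * η = |((W : ℝ) + 1) * h i₀| := by
      rw [abs_mul, abs_of_pos (by positivity : (0 : ℝ) < (W : ℝ) + 1), hη]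
    rw [h10]
    have h11 : ((W : ℝ) + 1) * h i₀ = z i₀ - (z i₀ - ((W : ℝ) + 1) * h i₀) := by ring
    calc |((W : ℝ) + 1) * h i₀| = |z i₀ - (z i₀ - ((W : ℝ) + 1) * h i₀)| := by rw [← h11]
      _ ≤ _ := abs_sub _ _
  have h12 : |(z i₀ : ℝ)| ≤ |a (W * q) i₀ - a 0 i₀| + |z i₀ - (a (W * q) i₀ - a 0 i₀)| := by
    have h13 : (z i₀ : ℝ) = (a (W * q) i₀ - a 0 i₀) + (z i₀ - (a (W * q) i₀ - a 0 i₀)) := by
      ring
    calc |(z i₀ : ℝ)| = |(a (W * q) i₀ - a 0 i₀) + (z i₀ - (a (W * q) i₀ - a 0 i₀))| := by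
          rw [← h13]
      _ ≤ _ := abs_add_le _ _
  have h14 : (1 + Real.sqrt n + 2 * B₂ * K' / η) ≤ η * (W + 1) / 2 := by
    have h15 : (1 + Real.sqrt n + 2 * B₂ * K' / η) * (2 / η) * (η / 2) ≤ W * (η / 2) := by
      gcongr
    have h16 : (1 + Real.sqrt n + 2 * B₂ * K' / η) * (2 / η) * (η / 2) =
        1 + Real.sqrt n + 2 * B₂ * K' / η := by
      field_simp
    rw [h16] at h15
    nlinarith
  linarith

end Pool.Agent.H99.EA
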