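import Pool.Agent.H99.EA.Def

/-!
# EA Cat: concatenation of chains

`cat2`: `a i = if i < m₁ then a₁ i else a₂ (i - m₁)`.  `cat`: induction on `k`, `cat2`.  `eg_per`: translate the chain (`Pool.Agent.H99.EC.D_per`).
-/

set_option autoImplicit false

open MeasureTheory Filter
open scoped RealInnerProductSpace

namespace Pool.Agent.H99.EA

open Pool.Agent.H33.AM (E Tor pr IsPeriodic)
open Pool.Agent.H68.HD
open Pool.Agent.H99.EC (D DS)

variable {n : ℕ}

theorem cat2 {S : E n → E n → ℝ} {u : E n → ℝ} {m₁ m₂ : ℕ} {a₁ a₂ : ℕ → E n}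
    (h : a₁ m₁ = a₂ 0) : ∃ a : ℕ → E n, a 0 = a₁ 0 ∧ a (m₁ + m₂) = a₂ m₂ ∧
      DS S u a (m₁ + m₂) = DS S u a₁ m₁ + DS S u a₂ m₂ := by
  refine ⟨fun i => if i < m₁ then a₁ i else a₂ (i - m₁), ?_, ?_, ?_⟩
  · by_cases h0 : 0 < m₁
    · simp only [if_pos h0]
    · have hm : m₁ = 0 := by omega
      subst hm
      simp only [lt_irrefl, if_false, Nat.sub_zero]
      exact h.symm
  · have h0 : ¬ (m₁ + m₂ < m₁) := by omega
    have h1 : m₁ + m₂ - m₁ = m₂ := by omega
    simp only [if_neg h0, h1]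
  · unfold DS
    rw [Finset.sum_range_add]
    refine congrArg₂ (· + ·) (Finset.sum_congr rfl fun i hi => ?_)
      (Finset.sum_congr rfl fun i _ => ?_)
    · have hi' : i < m₁ := Finset.mem_range.mp hi
      by_cases h1 : i + 1 < m₁
      · simp only [if_pos hi', if_pos h1]
      · have h2 : i + 1 = m₁ := by omega
        have h3 : i + 1 - m₁ = 0 := by omega
        simp only [if_pos hi', if_neg h1, h3]
        rw [← h, h2]
    · have h1 : ¬ (m₁ + i < m₁) := by omega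
      have h2 : ¬ (m₁ + i + 1 < m₁) := by omega
      have h3 : m₁ + i - m₁ = i := by omega
      have h4 : m₁ + i + 1 - m₁ = i + 1 := by omega
      simp only [if_neg h1, if_neg h2, h3, h4]

theorem cat {S : E n → E n → ℝ} {u : E n → ℝ} {q W : ℕ} {B : ℝ} {f : ℕ → E n} {k : ℕ}
    (h : ∀ i < k, Eg S u q W B (f i) (f (i + 1))) :
    ∃ (m : ℕ) (a : ℕ → E n), k * (2 * q) ≤ m ∧ m ≤ k * ((W + 2) * q) ∧ a 0 = f 0 ∧ a m = f k ∧
      DS S u a m ≤ k * B := by
  induction k with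
  | zero =>
    refine ⟨0, fun _ => f 0, by simp, by simp, rfl, rfl, ?_⟩
    simp [DS]
  | succ k ih =>
    obtain ⟨m, a, h1, h2, h3, h4, h5⟩ := ih fun i hi => h i (by omega)
    obtain ⟨m', a', g1, g2, g3, g4, g5⟩ := h k (by omega)
    obtain ⟨b, b1, b2, b3⟩ := cat2 (S := S) (u := u) (m₁ := m) (m₂ := m') (a₁ := a) (a₂ := a')
      (h4.trans g3.symm)
    refine ⟨m + m', b, ?_, ?_, b1.trans h3, b2.trans g4, ?_⟩
    · rw [Nat.succ_mul]
      omega
    · rw [Nat.succ_mul]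
      omega
    · rw [b3]
      push_cast
      linarith

theorem eg_per {S : E n → E n → ℝ} {a b κ K : ℝ} (hS : Pot S a b κ K) {u : E n → ℝ} {M Λ : ℝ}
    (hu : Sub S u M Λ) {q W : ℕ} {B : ℝ} {x y : E n} (z : Fin n → ℤ) (h : Eg S u q W B x y) :
    Eg S u q W B (x + zv z) (y + zv z) := by
  obtain ⟨m, a, h1, h2, h3, h4, h5⟩ := h
  refine ⟨m, fun i => a i + zv z, h1, h2, ?_, ?_, ?_⟩
  · simp only [h3]
  · simp only [h4]
  · have h6 : DS S u (fun i => a i + zv z) m = DS S u a m :=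
      Finset.sum_congr rfl fun i _ => Pool.Agent.H99.EC.D_per hS hu _ _ z
    rw [h6]
    exact h5

end Pool.Agent.H99.EA
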