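import Pool.Agent.H99.EC.Det

/-!
# EA Dt2: the determinant of `n` vectors near the ray of `h`

If the vectors `zv z` of the set lie in a hyperplane, take its normal.  Otherwise `n` of them, `z_1, ..., z_n`, with times `T_j`, are independent, `|det| ≥ 1`.
Let `T_1` be the largest time: `det (z_1, ..., z_n) = det (z_1, z_2 - (T_2/T_1) z_1, ...)`, the norms of the rows are `≤ A ‖h‖ + ρ` and `≤ 2 ρ`
(`z_j - (T_j/T_1) z_1 = w_j - (T_j/T_1) w_1`, `w_j = z_j - T_j h`).  See `Pool.Agent.H99.EC.det_dich` (file EC/Det.lean) and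
`Matrix.det_eq_of_forall_row_eq_smul_add_const`.
-/

set_option autoImplicit false

open MeasureTheory Filter
open scoped RealInnerProductSpace

namespace Pool.Agent.H99.EA

open Pool.Agent.H33.AM (E Tor pr IsPeriodic)
open Pool.Agent.H68.HD

variable {n : ℕ}

private theorem Dt2_det_le {a c : ℝ} (j0 : Fin n) (B : Matrix (Fin n) (Fin n) ℝ)
    (h0 : ∀ j, |B j0 j| ≤ a) (h1 : ∀ i j, i ≠ j0 → |B i j| ≤ c) :
    |B.det| ≤ (n.factorial : ℝ) * (a * c ^ (n - 1)) := by
  classical
  have hB : ∀ i j, |B i j| ≤ (if i = j0 then a else c) := by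
    intro i j
    by_cases h : i = j0
    · rw [if_pos h, h]
      exact h0 j
    · rw [if_neg h]
      exact h1 i j h
  rw [Matrix.det_apply]
  refine le_trans (Finset.abs_sum_le_sum_abs _ _) ?_
  have h2 : ∀ σ ∈ (Finset.univ : Finset (Equiv.Perm (Fin n))),
      |Equiv.Perm.sign σ • ∏ i, B (σ i) i| ≤ a * c ^ (n - 1) := by
    intro σ _
    have e1 : |Equiv.Perm.sign σ • ∏ i, B (σ i) i| = ∏ i, |B (σ i) i| := by
      rw [← Finset.abs_prod]
      rcases Int.units_eq_one_or (Equiv.Perm.sign σ) with h | h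
      · rw [h, one_smul]
      · rw [h, Units.smul_def, Units.val_neg, Units.val_one, neg_smul, one_smul, abs_neg]
    rw [e1]
    calc ∏ i, |B (σ i) i| ≤ ∏ i, (if σ i = j0 then a else c) :=
          Finset.prod_le_prod (fun i _ => abs_nonneg _) (fun i _ => hB _ _)
      _ = ∏ i, (if i = j0 then a else c) :=
          Equiv.prod_comp σ (fun i => if i = j0 then a else c)
      _ = a * c ^ (n - 1) := by
          rw [← Finset.mul_prod_erase Finset.univ _ (Finset.mem_univ j0), if_pos rfl]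
          congr 1
          rw [Finset.prod_congr rfl (fun i hi => if_neg (Finset.ne_of_mem_erase hi)), Finset.prod_const,
            Finset.card_erase_of_mem (Finset.mem_univ j0), Finset.card_univ, Fintype.card_fin]
  refine le_trans (Finset.sum_le_card_nsmul _ _ _ h2) (le_of_eq ?_)
  rw [Finset.card_univ, Fintype.card_perm, Fintype.card_fin, nsmul_eq_mul]

private theorem Dt2_int_ge (A : Matrix (Fin n) (Fin n) ℤ)
    (h : (A.map (Int.cast : ℤ → ℝ)).det ≠ 0) : 1 ≤ |(A.map (Int.cast : ℤ → ℝ)).det| := by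
  have e : (A.map (Int.cast : ℤ → ℝ)).det = ((A.det : ℤ) : ℝ) :=
    ((Int.castRingHom ℝ).map_det A).symm
  rw [e] at h ⊢
  have h1 : A.det ≠ 0 := by exact_mod_cast h
  have h2 := Int.one_le_abs h1
  exact_mod_cast h2

theorem det_dich2 (hn : 0 < n) (h : E n) {A ρ : ℝ} (hA : 0 ≤ A) (hρ : 0 ≤ ρ) :
    (∃ θ : E n, θ ≠ 0 ∧ ∀ (T : ℝ) (z : Fin n → ℤ), 0 < T → T ≤ A → ‖zv z - T • h‖ ≤ ρ →
      ⟪θ, zv z⟫ = 0) ∨
    1 ≤ (n.factorial : ℝ) * ((A * ‖h‖ + ρ) * (2 * ρ) ^ (n - 1)) := by
  classical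
  set S : Set (Fin n → ℝ) := {v | ∃ (T : ℝ) (z : Fin n → ℤ), 0 < T ∧ T ≤ A ∧
    ‖zv z - T • h‖ ≤ ρ ∧ v = fun i => (z i : ℝ)} with hS
  by_cases hsp : Submodule.span ℝ S = ⊤
  · right
    obtain ⟨b, hbT, hbs, hbl⟩ := exists_linearIndependent ℝ S
    rw [hsp] at hbs
    have hb2 : ⊤ ≤ Submodule.span ℝ (Set.range ((↑) : b → (Fin n → ℝ))) := by
      rw [Subtype.range_coe, hbs]
    let bas := Module.Basis.mk hbl hb2
    let e : b ≃ Fin n := bas.indexEquiv (Pi.basisFun ℝ (Fin n))
    have hw : LinearIndependent ℝ (fun j : Fin n => ((e.symm j : b) : Fin n → ℝ)) :=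
      hbl.comp e.symm e.symm.injective
    have hwT : ∀ j, ∃ (T : ℝ) (z : Fin n → ℤ), 0 < T ∧ T ≤ A ∧ ‖zv z - T • h‖ ≤ ρ ∧
        ((e.symm j : b) : Fin n → ℝ) = fun i => (z i : ℝ) :=
      fun j => hbT (e.symm j).2
    choose T z hT hTA hz hTz using hwT
    let M : Matrix (Fin n) (Fin n) ℤ := fun i j => z i j
    have hM : M.map (Int.cast : ℤ → ℝ) = Matrix.of (fun j : Fin n => ((e.symm j : b) : Fin n → ℝ)) := by
      ext i j
      rw [Matrix.map_apply, Matrix.of_apply, hTz i]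
    have hdet : (M.map (Int.cast : ℤ → ℝ)).det ≠ 0 := by
      rw [hM]
      have h3 : IsUnit (Matrix.of (fun j : Fin n => ((e.symm j : b) : Fin n → ℝ))) :=
        Matrix.linearIndependent_rows_iff_isUnit.mp hw
      exact ((Matrix.isUnit_iff_isUnit_det _).mp h3).ne_zero
    have h1 := Dt2_int_ge M hdet
    have : Nonempty (Fin n) := ⟨⟨0, hn⟩⟩
    obtain ⟨j0, hj0⟩ := Finite.exists_max T
    let B : Matrix (Fin n) (Fin n) ℝ := fun i j =>
      (M.map (Int.cast : ℤ → ℝ)) i j + (if i = j0 then 0 else -(T i / T j0)) * (M.map (Int.cast : ℤ → ℝ)) j0 j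
    have hBA : B.det = (M.map (Int.cast : ℤ → ℝ)).det :=
      Matrix.det_eq_of_forall_row_eq_smul_add_const
        (fun i => if i = j0 then 0 else -(T i / T j0)) j0 (by simp) (fun i j => rfl)
    rw [← hBA] at h1
    refine le_trans h1 (Dt2_det_le j0 B ?_ ?_)
    · intro j
      have e1 : B j0 j = (zv (z j0)) j := by
        change (z j0 j : ℝ) + (if j0 = j0 then 0 else -(T j0 / T j0)) * (z j0 j : ℝ) = (z j0 j : ℝ)
        rw [if_pos rfl, zero_mul, add_zero]
      rw [e1, ← Real.norm_eq_abs]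
      refine le_trans (PiLp.norm_apply_le _ j) ?_
      have e2 : zv (z j0) = (T j0) • h + (zv (z j0) - (T j0) • h) := by abel
      rw [e2]
      refine le_trans (norm_add_le _ _) (add_le_add ?_ (hz j0))
      rw [norm_smul, Real.norm_eq_abs, abs_of_pos (hT j0)]
      exact mul_le_mul_of_nonneg_right (hTA j0) (norm_nonneg _)
    · intro i j hij
      have hT0 := (hT j0).ne'
      have e1 : B i j = ((zv (z i) - (T i) • h) - (T i / T j0) • (zv (z j0) - (T j0) • h)) j := by
        have e3 : B i j = (z i j : ℝ) + (if i = j0 then 0 else -(T i / T j0)) * (z j0 j : ℝ) := rfl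
        have e4 : ((zv (z i) - (T i) • h) - (T i / T j0) • (zv (z j0) - (T j0) • h)) j =
            ((z i j : ℝ) - T i * h j) - (T i / T j0) * ((z j0 j : ℝ) - T j0 * h j) := rfl
        rw [e3, e4, if_neg hij]
        field_simp
        ring
      rw [e1, ← Real.norm_eq_abs]
      refine le_trans (PiLp.norm_apply_le _ j) (le_trans (norm_sub_le _ _) ?_)
      rw [two_mul]
      refine add_le_add (hz i) ?_
      rw [norm_smul, Real.norm_eq_abs, abs_of_pos (div_pos (hT i) (hT j0))]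
      have h4 : T i / T j0 ≤ 1 := (div_le_one (hT j0)).2 (hj0 i)
      calc T i / T j0 * ‖zv (z j0) - (T j0) • h‖ ≤ 1 * ρ :=
            mul_le_mul h4 (hz j0) (norm_nonneg _) zero_le_one
        _ = ρ := one_mul _
  · left
    obtain ⟨f, hf0, hf⟩ := Submodule.exists_le_ker_of_lt_top _ (lt_top_iff_ne_top.mpr hsp)
    set t : Fin n → ℝ := fun i => f (fun j => if i = j then 1 else 0) with ht
    have hft : ∀ v : Fin n → ℝ, f v = ∑ i, v i * t i := by
      intro v
      rw [LinearMap.pi_apply_eq_sum_univ f v]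
      simp only [smul_eq_mul, ht]
    have hfT : ∀ v ∈ S, f v = 0 := fun v hv => hf (Submodule.subset_span hv)
    refine ⟨WithLp.toLp 2 t, ?_, ?_⟩
    · intro h0
      have h1 : ∀ i : Fin n, t i = 0 := fun i => congrArg (fun v : E n => v i) h0
      apply hf0
      refine LinearMap.ext fun v => ?_
      rw [hft, LinearMap.zero_apply]
      simp [h1]
    · intro T z hT hTA hz
      have h2 := hfT (fun i => (z i : ℝ)) ⟨T, z, hT, hTA, hz, rfl⟩
      rw [hft] at h2
      rw [PiLp.inner_apply, ← h2]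
      refine Finset.sum_congr rfl fun i _ => ?_
      simp [zv]

end Pool.Agent.H99.EA
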