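import Pool.Agent.H99.EA.Spd
import Pool.Agent.H68.HDA.Sem

/-!
# EA Mov: one point of a chain moves at quadratic cost, uniformly in `q`

Case `e = 0`: `b = a`.  Otherwise `semi_k` (HDA.Sem) with `k = q`, `ρ = ‖e‖ ≤ 1`, slack `‖e‖²`, for `f = a`, `ξ₀ = 0`, `ξ₁ = e` (chains `f₁`, `f₂`) and for
`f = fun i => a (q + i)`, `ξ₀ = e`, `ξ₁ = 0` (chains `f₁'`, `f₂'`).  The costs of the two pieces of `a` are `≤ 1 + B` (`osc_sol`; cost = defect + difference of `u`).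
`b` = `f₁` followed by `f₁'`; `f₂` followed by `f₂'` is a chain from `a 0` to `a (2 q)`, so its cost is `≥ u (a (2 q)) - u (a 0)`.
So `DS b ≤ 2 DS a + C ‖e‖²`.
-/

set_option autoImplicit false

open MeasureTheory Filter
open scoped RealInnerProductSpace

namespace Pool.Agent.H99.EA

open Pool.Agent.H33.AM (E Tor pr IsPeriodic)
open Pool.Agent.H68.HD
open Pool.Agent.H68.HDA (Aut Lq)
open Pool.Agent.H99.EC (D DS)

variable {n : ℕ}

private theorem mov_tel (S : E n → E n → ℝ) (u : E n → ℝ) (f : ℕ → E n) (k : ℕ) :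
    cost S f k = DS S u f k + (u (f k) - u (f 0)) := by
  unfold cost DS D
  rw [← Finset.sum_range_sub (fun i => u (f i)) k, ← Finset.sum_add_distrib]
  exact Finset.sum_congr rfl fun i _ => by ring

private theorem mov_nonneg {S : E n → E n → ℝ} {u : E n → ℝ} (hu : Sol S u) (f : ℕ → E n)
    (k : ℕ) : 0 ≤ DS S u f k := by
  refine Finset.sum_nonneg fun i _ => ?_
  have := hu.sub (f i) (f (i + 1))
  unfold D
  linarith

private theorem mov_ge {S : E n → E n → ℝ} {u : E n → ℝ} (hu : Sol S u) (f : ℕ → E n)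
    (k : ℕ) : u (f k) - u (f 0) ≤ cost S f k := by
  have h1 := mov_tel S u f k
  have h2 := mov_nonneg hu f k
  linarith

private theorem mov_cat (S : E n → E n → ℝ) (f g : ℕ → E n) (k m : ℕ) (h : g 0 = f k) :
    cost S (fun l => if l ≤ k then f l else g (l - k)) (k + m) = cost S f k + cost S g m := by
  unfold cost
  rw [Finset.sum_range_add]
  congr 1
  · refine Finset.sum_congr rfl fun l hl => ?_
    have hl' := Finset.mem_range.1 hl
    have e1 : l ≤ k := by omega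
    have e2 : l + 1 ≤ k := by omega
    simp only [e1, e2, if_true]
  · refine Finset.sum_congr rfl fun l _ => ?_
    have e1 : (if k + l ≤ k then f (k + l) else g (k + l - k)) = g l := by
      rcases Nat.eq_zero_or_pos l with rfl | hl
      · simp [h]
      · rw [if_neg (by omega), Nat.add_sub_cancel_left]
    have e2 : (if k + l + 1 ≤ k then f (k + l + 1) else g (k + l + 1 - k)) = g (l + 1) := by
      rw [if_neg (by omega), Nat.add_assoc, Nat.add_sub_cancel_left]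
    simp only [e1, e2]

private theorem mov_split (S : E n → E n → ℝ) (u : E n → ℝ) (a : ℕ → E n) (q : ℕ) :
    DS S u a (2 * q) = DS S u a q + DS S u (fun i => a (q + i)) q := by
  unfold DS
  rw [two_mul, Finset.sum_range_add]
  rfl

/-- The error term of `semi_k` for `k = q`. -/
private theorem mov_err {κ K N r B c₀ q' : ℝ} (hκ : 0 < κ) (hq : q' ≠ 0) (hN0 : 0 ≤ N)
    (hN : N ≤ 1) (hr : c₀ ≤ 1 + B) (hs : r = N ^ 2) (M : ℝ) :
    2 * |K| * N ^ 2 / (q' / q') ^ 2 * (q' / q' + 2 / κ * (c₀ + M * (q' / q') + r)) + r ≤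
      (2 * |K| * (1 + 2 / κ * (2 + B + M)) + 1) * N ^ 2 := by
  rw [div_self hq, one_pow, div_one, mul_one, hs]
  have h1 : N ^ 2 ≤ 1 := pow_le_one₀ hN0 hN
  have h2 : 2 / κ * (c₀ + M + N ^ 2) ≤ 2 / κ * (2 + B + M) :=
    mul_le_mul_of_nonneg_left (by linarith) (by positivity)
  have h3 : 2 * |K| * N ^ 2 * (1 + 2 / κ * (c₀ + M + N ^ 2)) ≤
      2 * |K| * N ^ 2 * (1 + 2 / κ * (2 + B + M)) :=
    mul_le_mul_of_nonneg_left (by linarith) (by positivity)
  nlinarith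

theorem move {L : E n → E n → ℝ → ℝ} {κ K : ℝ} (hL : Growth L κ K) (ha : Aut L) (c : E n) :
    ∃ C : ℝ, 1 ≤ C ∧ ∀ q : ℕ, 0 < q → ∀ u : E n → ℝ, Sol (Sq L c q) u →
      ∀ (a : ℕ → E n) (e : E n), ‖e‖ ≤ 1 → DS (Sq L c q) u a (2 * q) ≤ 1 →
        ∃ b : ℕ → E n, b 0 = a 0 ∧ b q = a q + e ∧ b (2 * q) = a (2 * q) ∧
          DS (Sq L c q) u b (2 * q) ≤ 2 * DS (Sq L c q) u a (2 * q) + C * ‖e‖ ^ 2 := by
  obtain ⟨B, hB0, hB⟩ := osc_sol hL ha c
  have hκ := hL.pos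
  obtain ⟨M, hM⟩ : ∃ M : ℝ, M = |K + ‖c‖ ^ 2 / (2 * κ) - alpha L c| := ⟨_, rfl⟩
  have hM0 : 0 ≤ M := by
    rw [hM]
    exact abs_nonneg _
  obtain ⟨F, hF⟩ : ∃ F : ℝ, F = 2 * |K| * (1 + 2 / κ * (2 + B + M)) + 1 := ⟨_, rfl⟩
  have hF0 : 0 ≤ F := by
    rw [hF]
    positivity
  refine ⟨1 + 2 * F, by linarith, ?_⟩
  intro q hq u hu a e he hDS
  have hq' : (q : ℝ) ≠ 0 := Nat.cast_ne_zero.2 hq.ne'
  by_cases he0 : e = 0
  · refine ⟨a, rfl, by rw [he0, add_zero], rfl, ?_⟩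
    have h1 := mov_nonneg hu a (2 * q)
    have h2 : 0 ≤ (1 + 2 * F) * ‖e‖ ^ 2 := by positivity
    linarith
  have hN : 0 < ‖e‖ := norm_pos_iff.2 he0
  have hε : 0 < ‖e‖ ^ 2 := by positivity
  have hsp := mov_split (Sq L c q) u a q
  have hd1 := mov_nonneg hu a q
  have hd2 := mov_nonneg hu (fun i => a (q + i)) q
  -- the costs of the two pieces
  have hc1 := mov_tel (Sq L c q) u a q
  have hc2 := mov_tel (Sq L c q) u (fun i => a (q + i)) q
  simp only [add_zero] at hc2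
  have e2q : q + q = 2 * q := (two_mul q).symm
  rw [e2q] at hc2
  have hb1 := hB q hq u hu (a 0) (a q)
  have hb2 := hB q hq u hu (a q) (a (2 * q))
  have hρ : ‖e‖ ≤ (q : ℝ) / q := by
    rw [div_self hq']
    exact he
  obtain ⟨f₁, f₂, f10, f1q, f20, f2q, hf⟩ :=
    Pool.Agent.H68.HDA.semi_k hL hq c (alpha L c) hq le_rfl a 0 e ‖e‖ hρ
      (by rw [norm_zero]; exact hN.le) le_rfl (by rw [sub_zero]) (‖e‖ ^ 2) hε
  obtain ⟨g₁, g₂, g10, g1q, g20, g2q, hg⟩ :=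
    Pool.Agent.H68.HDA.semi_k hL hq c (alpha L c) hq le_rfl (fun i => a (q + i)) e 0 ‖e‖ hρ
      le_rfl (by rw [norm_zero]; exact hN.le) (by rw [zero_sub, norm_neg]) (‖e‖ ^ 2) hε
  simp only [add_zero, sub_zero, e2q] at f10 f20 g10 g20 g1q g2q
  rw [← hM] at hf hg
  change cost (Sq L c q) f₁ q + cost (Sq L c q) f₂ q ≤ 2 * cost (Sq L c q) a q +
    2 * |K| * ‖e‖ ^ 2 / ((q : ℝ) / q) ^ 2 * ((q : ℝ) / q + 2 / κ *
      (cost (Sq L c q) a q + M * ((q : ℝ) / q) + ‖e‖ ^ 2)) + ‖e‖ ^ 2 at hf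
  change cost (Sq L c q) g₁ q + cost (Sq L c q) g₂ q ≤
    2 * cost (Sq L c q) (fun i => a (q + i)) q +
    2 * |K| * ‖e‖ ^ 2 / ((q : ℝ) / q) ^ 2 * ((q : ℝ) / q + 2 / κ *
      (cost (Sq L c q) (fun i => a (q + i)) q + M * ((q : ℝ) / q) + ‖e‖ ^ 2)) + ‖e‖ ^ 2 at hg
  have r1 := mov_err (K := K) (c₀ := cost (Sq L c q) a q) hκ hq' hN.le he
    (by linarith : cost (Sq L c q) a q ≤ 1 + B) rfl M
  have r2 := mov_err (K := K) (c₀ := cost (Sq L c q) (fun i => a (q + i)) q) hκ hq' hN.le he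
    (by linarith : cost (Sq L c q) (fun i => a (q + i)) q ≤ 1 + B) rfl M
  rw [← hF] at r1 r2
  -- lower bounds for the second chains
  have l1 := mov_ge hu f₂ q
  have l2 := mov_ge hu g₂ q
  rw [f20, f2q] at l1
  rw [g20, g2q] at l2
  have hgl : g₁ 0 = f₁ q := by rw [g10, f1q]
  have hcat := mov_cat (Sq L c q) f₁ g₁ q q hgl
  obtain ⟨b, hb⟩ : ∃ b : ℕ → E n, b = fun l => if l ≤ q then f₁ l else g₁ (l - q) := ⟨_, rfl⟩
  rw [← hb] at hcat
  have b0 : b 0 = a 0 := by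
    rw [hb]
    simp only [Nat.zero_le, if_true]
    exact f10
  have bq : b q = a q + e := by
    rw [hb]
    simp only [le_refl, if_true]
    exact f1q
  have b2 : b (2 * q) = a (2 * q) := by
    rw [hb]
    have h1 : ¬ (2 * q ≤ q) := by omega
    have h2 : 2 * q - q = q := by omega
    simp only [h1, if_false, h2]
    exact g1q
  refine ⟨b, b0, bq, b2, ?_⟩
  have ht := mov_tel (Sq L c q) u b (2 * q)
  rw [b0, b2] at ht
  rw [e2q] at hcat
  have hfin : (1 + 2 * F) * ‖e‖ ^ 2 = ‖e‖ ^ 2 + F * ‖e‖ ^ 2 + F * ‖e‖ ^ 2 := by ring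
  rw [hfin]
  linarith

end Pool.Agent.H99.EA
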