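import Pool.Agent.H99.EA.Def

/-!
# EA Slb: a slab with few points

`m = ⌊1/(8 ε)⌋ ≥ 2`, `s_l = 8 ε l` for `l < m`.  No `v` is in two of the sets `Slab F i₀ s_l ε`: `|s_l - s_l' - j| ≤ 6 ε` for an integer `j` and
`l ≠ l'` is impossible, as `8 ε ≤ |s_l - s_l'| ≤ 8 ε (m - 1) ≤ 1 - 8 ε`.  So `∑_l card ≤ card F`, some `card ≤ card F / m`, and
`m ≥ 1/(8 ε) - 1 ≥ 1/(16 ε)`.
-/

set_option autoImplicit false

open MeasureTheory Filter
open scoped RealInnerProductSpace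

namespace Pool.Agent.H99.EA

open Pool.Agent.H33.AM (E Tor pr IsPeriodic)

variable {n : ℕ}

private theorem Slb_disj (i₀ : Fin n) (F : Finset (E n)) {ε : ℝ} (hε : 0 < ε) {m l l' : ℕ}
    (hm : 8 * ε * m ≤ 1) (hl : l < l') (hl' : l' < m) :
    Disjoint (Slab F i₀ (8 * ε * l) ε) (Slab F i₀ (8 * ε * l') ε) := by
  rw [Finset.disjoint_left]
  intro v h1 h2
  obtain ⟨-, j, hj⟩ := mem_slab.1 h1
  obtain ⟨-, j', hj'⟩ := mem_slab.1 h2
  have ha := abs_le.1 hj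
  have hb := abs_le.1 hj'
  have hd1 : ((l : ℝ) + 1) ≤ l' := by exact_mod_cast hl
  have hd2 : ((l' : ℝ) + 1) ≤ m := by exact_mod_cast hl'
  have hl0 : (0 : ℝ) ≤ l := Nat.cast_nonneg l
  have h3 : 8 * ε ≤ 8 * ε * l' - 8 * ε * l := by nlinarith
  have h4 : 8 * ε * l' - 8 * ε * l ≤ 1 - 8 * ε := by nlinarith
  rcases le_or_gt j j' with h | h
  · have h5 : (j : ℝ) ≤ j' := by exact_mod_cast h
    linarith [ha.1, ha.2, hb.1, hb.2]
  · have h5 : (j' : ℝ) + 1 ≤ j := by exact_mod_cast h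
    linarith [ha.1, ha.2, hb.1, hb.2]

theorem slab (i₀ : Fin n) (F : Finset (E n)) {ε : ℝ} (hε : 0 < ε) (hε' : ε ≤ 1 / 16) :
    ∃ s : ℝ, ((Slab F i₀ s ε).card : ℝ) ≤ 16 * ε * F.card := by
  classical
  by_contra hcon
  push Not at hcon
  obtain ⟨m, hm⟩ : ∃ m : ℕ, m = ⌊1 / (8 * ε)⌋₊ := ⟨_, rfl⟩
  have h8 : 0 < 8 * ε := by linarith
  have hge : (2 : ℝ) ≤ 1 / (8 * ε) := by
    rw [le_div_iff₀ h8]
    linarith
  have hm1 : (m : ℝ) ≤ 1 / (8 * ε) := by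
    rw [hm]
    exact Nat.floor_le (by linarith)
  have hm2 : 1 / (8 * ε) < m + 1 := by
    rw [hm]
    exact Nat.lt_floor_add_one _
  have hm3 : 8 * ε * m ≤ 1 := by
    have := (le_div_iff₀ h8).1 hm1
    linarith
  have hm4 : 1 ≤ 16 * ε * m := by
    have h1 : 1 / (8 * ε) ≤ 2 * m := by linarith
    have h2 := (div_le_iff₀ h8).1 h1
    linarith
  have hmpos : 0 < m := by
    rcases Nat.eq_zero_or_pos m with h | h
    · rw [h, Nat.cast_zero, mul_zero] at hm4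
      linarith
    · exact h
  have hdisj : Set.PairwiseDisjoint (↑(Finset.range m)) fun l : ℕ => Slab F i₀ (8 * ε * l) ε := by
    intro l hl l' hl' hne
    have hl1 : l < m := Finset.mem_range.1 (Finset.mem_coe.1 hl)
    have hl1' : l' < m := Finset.mem_range.1 (Finset.mem_coe.1 hl')
    rcases lt_or_gt_of_ne hne with h | h
    · exact Slb_disj i₀ F hε hm3 h hl1'
    · exact (Slb_disj i₀ F hε hm3 h hl1).symm
  have hsub : (Finset.range m).biUnion (fun l : ℕ => Slab F i₀ (8 * ε * l) ε) ⊆ F := by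
    intro v hv
    obtain ⟨l, -, hl⟩ := Finset.mem_biUnion.1 hv
    exact (mem_slab.1 hl).1
  have hcard : ∑ l ∈ Finset.range m, (Slab F i₀ (8 * ε * l) ε).card ≤ F.card := by
    rw [← Finset.card_biUnion hdisj]
    exact Finset.card_le_card hsub
  have hcard' : ∑ l ∈ Finset.range m, ((Slab F i₀ (8 * ε * l) ε).card : ℝ) ≤ F.card := by
    exact_mod_cast hcard
  have hlt : ∑ _l ∈ Finset.range m, 16 * ε * (F.card : ℝ) <
      ∑ l ∈ Finset.range m, ((Slab F i₀ (8 * ε * l) ε).card : ℝ) :=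
    Finset.sum_lt_sum_of_nonempty ⟨0, Finset.mem_range.2 hmpos⟩ fun l _ => hcon _
  rw [Finset.sum_const, Finset.card_range, nsmul_eq_mul] at hlt
  have hF : (0 : ℝ) ≤ F.card := Nat.cast_nonneg _
  nlinarith [mul_le_mul_of_nonneg_right hm4 hF]

end Pool.Agent.H99.EA
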