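import Pool.Agent.H99.EA.Drf
import Pool.Agent.H99.EA.Mov
import Pool.Agent.H99.EA.Adv
import Pool.Agent.H99.EA.Slb
import Pool.Agent.H99.EA.Dt2
import Pool.Agent.H99.EC.Rep
import Pool.Agent.H99.EC.Ech
import Pool.Agent.H68.HDA.Auq
import Pool.Agent.H68.HD.U
import Pool.Agent.H68.HD.S2

/-!
# EA Cor: no functional kills the small vectors; the lower bound for the coverings
-/

set_option autoImplicit false

open MeasureTheory Filter
open scoped RealInnerProductSpace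

namespace Pool.Agent.H99.EA

open Pool.Agent.H33.AM (E Tor pr IsPeriodic)
open Pool.Agent.H68.HD
open Pool.Agent.H68.HDA (Aut Lq alpha_q growth_q aub_q)
open Pool.Agent.H99.EC (D DS cost_eq_DS rep ech)

variable {n : ℕ}

theorem core2 {L : E n → E n → ℝ → ℝ} {κ K : ℝ} (hL : Growth L κ K) (ha : Aut L) {c h : E n}
    {κ' K' p₀ : ℝ} (hκ : 0 < κ') (hp₀ : 0 < p₀)
    (hlo : ∀ p, ‖p‖ ≤ p₀ → κ' * ‖p‖ ^ 2 ≤ alpha L (c + p) - alpha L c - ⟪h, p⟫)
    (hup : ∀ p, ‖p‖ ≤ p₀ → alpha L (c + p) - alpha L c - ⟪h, p⟫ ≤ K' * ‖p‖ ^ 2) (hK : 0 < K')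
    {i₀ : Fin n} (hi : h i₀ ≠ 0) :
    ∃ C₂ A ε₀ : ℝ, 0 < C₂ ∧ 0 < A ∧ 0 < ε₀ ∧ ∀ ε : ℝ, 0 < ε → ε ≤ ε₀ → ∀ F : Finset (E n),
      (∀ x, Aub (Sp L c (alpha L c)) x → ∃ v ∈ F, ∃ z, ‖x - (v + zv z)‖ ≤ ε) →
      ∀ (s : ℝ) (θ : E n), θ ≠ 0 → ¬ ∀ (T : ℝ) (z : Fin n → ℤ), 0 < T →
        T ≤ A * (Slab F i₀ s ε).card → ‖zv z - T • h‖ ≤ C₂ * ((Slab F i₀ s ε).card * ε) →
          ⟪θ, zv z⟫ = 0 := by
  obtain ⟨V, hV1, hspeed⟩ := speed hL c
  obtain ⟨C, hC1, hmove⟩ := move hL ha c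
  obtain ⟨W, hW0, hadv⟩ := advance hL ha hp₀ hK hup hi
  obtain ⟨C', hC'⟩ : ∃ C' : ℝ, C' = 20 * C := ⟨_, rfl⟩
  have hC'0 : 0 < C' := by
    rw [hC']
    linarith
  have hW0' : (0 : ℝ) ≤ W := Nat.cast_nonneg _
  obtain ⟨ε₀, hε₀⟩ : ∃ ε₀ : ℝ, ε₀ = min 1 (min (1 / C') (K' * p₀ ^ 2 / C')) := ⟨_, rfl⟩
  have hε₀0 : 0 < ε₀ := by
    rw [hε₀]
    positivity
  have e2 : ε₀ ≤ 1 := by
    rw [hε₀]
    exact min_le_left _ _
  have e3 : ε₀ ≤ 1 / C' := by
    rw [hε₀]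
    exact (min_le_right _ _).trans (min_le_left _ _)
  have e4 : ε₀ ≤ K' * p₀ ^ 2 / C' := by
    rw [hε₀]
    exact (min_le_right _ _).trans (min_le_right _ _)
  refine ⟨2 * Real.sqrt (C' * K' * (W + 2)), W + 2, ε₀, by positivity, by positivity, hε₀0,
    fun ε hε hεε₀ F hF s => ?_⟩
  have hsq : C' * ε ^ 2 ≤ C' * ε := by
    refine mul_le_mul_of_nonneg_left ?_ hC'0.le
    nlinarith
  have hε1 : C' * ε ^ 2 ≤ 1 := by
    have h2 : ε * C' ≤ 1 := by
      rw [← le_div_iff₀ hC'0]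
      exact hεε₀.trans e3
    linarith
  have hε2 : C' * ε ^ 2 < 2 * (K' * p₀ ^ 2) := by
    have h2 : ε * C' ≤ K' * p₀ ^ 2 := by
      rw [← le_div_iff₀ hC'0]
      exact hεε₀.trans e4
    have h4 : 0 < K' * p₀ ^ 2 := by positivity
    linarith
  -- the time unit
  obtain ⟨q, hq⟩ : ∃ q : ℕ, q = ⌈V / ε⌉₊ := ⟨_, rfl⟩
  have hVε : 0 < V / ε := by positivity
  have hq1 : 0 < q := by
    rw [hq]
    exact Nat.ceil_pos.2 hVε
  have hq0 : (0 : ℝ) < q := by exact_mod_cast hq1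
  have hVq : V / q ≤ ε := by
    have h2 : V / ε ≤ q := by
      rw [hq]
      exact Nat.le_ceil _
    rw [div_le_iff₀ hε] at h2
    rw [div_le_iff₀ hq0]
    linarith
  obtain ⟨K₁, hL'⟩ := growth_q hL hq1
  obtain ⟨a, b, κ₂, K₂, hS⟩ := pot hL' c (alpha L c / q)
  have h1 : N1 (Sq L c q) := by
    have h2 := n1 hL' c
    rw [alpha_q hL ha hq1] at h2
    exact h2
  have hS' : Pot (Sq L c q) a b κ₂ K₂ := hS
  obtain ⟨u, M, Λ, hu⟩ := exists_sub hS' h1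
  have hsol : Sol (Sq L c q) u := ⟨hu.per, hu.sub⟩
  have hU : Uni (Sq L c q) u q V C W i₀ :=
    ⟨hspeed q hq1 u hsol, hmove q hq1 u hsol, hadv q hq1 u hsol⟩
  have hF' : ∀ x, Aub (Sq L c q) x → ∃ v ∈ F, ∃ z, ‖x - (v + zv z)‖ ≤ ε :=
    fun x hx => hF x (aub_q hL ha hq1 c (alpha L c) hx)
  -- the main case
  have main : ∀ (θ : E n), θ ≠ 0 → 0 ≤ ⟪θ, h⟫ →
      (∀ (T : ℝ) (z : Fin n → ℤ), 0 < T → T ≤ (W + 2) * (Slab F i₀ s ε).card →
        ‖zv z - T • h‖ ≤ 2 * Real.sqrt (C' * K' * (W + 2)) * ((Slab F i₀ s ε).card * ε) →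
          ⟪θ, zv z⟫ = 0) → False := by
    intro θ hθ hθh hkill
    have hθ0 : 0 < ‖θ‖ := norm_pos_iff.2 hθ
    obtain ⟨C₁, hC₁, hdr⟩ := drift2 hS' hu hq1 hU hC1 hε (by rw [← hC']; exact hε1) hVq F hF' s
      (θ := θ) (fun f k z hf hk hfe => by
        have hk0 : (0 : ℝ) < k := by exact_mod_cast hf.1
        obtain ⟨m, g, hm1, hm2, hg0, hgm, hgD⟩ := cat hfe
        have hm0 : 0 < m := lt_of_lt_of_le (Nat.mul_pos hf.1 (by omega)) hm1
        have hcl : Cl g m z := ⟨hm0, by rw [hgm, hg0, hf.2]⟩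
        obtain ⟨T, hT⟩ : ∃ T : ℝ, T = (m : ℝ) / q := ⟨_, rfl⟩
        have hm0' : (0 : ℝ) < m := by exact_mod_cast hm0
        have hT0 : 0 < T := by
          rw [hT]
          positivity
        have hT1 : 2 * (k : ℝ) ≤ T := by
          rw [hT, le_div_iff₀ hq0]
          have h3 : ((k * (2 * q) : ℕ) : ℝ) ≤ m := by exact_mod_cast hm1
          push_cast at h3
          linarith
        have hT2 : T ≤ (W + 2) * k := by
          rw [hT, div_le_iff₀ hq0]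
          have h3 : (m : ℝ) ≤ ((k * ((W + 2) * q) : ℕ) : ℝ) := by exact_mod_cast hm2
          push_cast at h3
          linarith
        have hcost : cost (Sq L c q) g m ≤ k * (C' * ε ^ 2) := by
          rw [cost_eq_DS hu hcl, hC']
          exact hgD
        have hkc : (k : ℝ) ≤ (Slab F i₀ s ε).card := by exact_mod_cast hk
        have h3 := cyr (h := h) (T := T) (B := k * (C' * ε ^ 2)) hp₀ hK hT0
          (Q := fun p => alpha L (c + p) - alpha L c) (fun p hp => by linarith [hup p hp])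
          (z := z) (fun p => by
            have h4 := co_Tq hL ha hq1 c hcl p
            rw [← hT] at h4
            exact h4.trans hcost)
        have h5 : ⟪θ, zv z⟫ = 0 := by
          refine hkill T z hT0 (hT2.trans ?_) ?_
          · exact mul_le_mul_of_nonneg_left hkc (by positivity)
          · rcases h3 with h4 | h4
            · have h6 : ‖zv z - T • h‖ ^ 2 ≤ (2 * Real.sqrt (C' * K' * (W + 2)) * (k * ε)) ^ 2 := by
                refine h4.trans ?_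
                have h7 : (2 * Real.sqrt (C' * K' * (W + 2)) * (k * ε)) ^ 2 =
                    4 * (C' * K' * (W + 2)) * (k * ε) ^ 2 := by
                  rw [mul_pow, mul_pow, Real.sq_sqrt (by positivity)]
                  ring
                rw [h7]
                calc 4 * (k * (C' * ε ^ 2)) * K' * T
                    ≤ 4 * (k * (C' * ε ^ 2)) * K' * ((W + 2) * k) :=
                      mul_le_mul_of_nonneg_left hT2 (by positivity)
                  _ = _ := by ring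
              have h7 := (pow_le_pow_iff_left₀ (norm_nonneg _) (by positivity) two_ne_zero).1 h6
              refine h7.trans (mul_le_mul_of_nonneg_left ?_ (by positivity))
              exact mul_le_mul_of_nonneg_right hkc hε.le
            · exfalso
              have h6 : (2 * k) * (K' * p₀ ^ 2) ≤ T * (K' * p₀ ^ 2) :=
                mul_le_mul_of_nonneg_right hT1 (by positivity)
              have h7 : (k : ℝ) * (2 * (K' * p₀ ^ 2)) ≤ k * (C' * ε ^ 2) := by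
                calc (k : ℝ) * (2 * (K' * p₀ ^ 2)) = (2 * k) * (K' * p₀ ^ 2) := by ring
                  _ ≤ T * (K' * p₀ ^ 2) := h6
                  _ = T * K' * p₀ ^ 2 := by ring
                  _ ≤ _ := h4
              have h8 := le_of_mul_le_mul_left h7 hk0
              linarith
        exact h5.le)
    have hrep : ∀ f k z, Cl f k z → ⟪θ, zv z⟫ ≤ C₁ * cost (Sq L c q) f k := fun f k z hf => by
      have h2 := rep hS' hu hC₁ hdr hf
      linarith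
    obtain ⟨A, hA⟩ : ∃ A : ℝ, A = C₁ * (κ' + 4 * K') := ⟨_, rfl⟩
    have hA0 : 0 ≤ A := by
      rw [hA]
      positivity
    obtain ⟨r, hr⟩ : ∃ r : ℝ, r = min (p₀ / (2 * ‖θ‖)) (κ' / (4 * (A + 1))) := ⟨_, rfl⟩
    have hr0 : 0 < r := by
      rw [hr]
      positivity
    have hr1 : 2 * (r * ‖θ‖) ≤ p₀ := by
      have h2 : r ≤ p₀ / (2 * ‖θ‖) := by
        rw [hr]
        exact min_le_left _ _
      rw [le_div_iff₀ (by positivity)] at h2
      linarith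
    have hr2 : A * r < κ' / 2 := by
      have h2 : r ≤ κ' / (4 * (A + 1)) := by
        rw [hr]
        exact min_le_right _ _
      rw [le_div_iff₀ (by positivity)] at h2
      nlinarith
    have hnorm : ‖r • θ‖ = r * ‖θ‖ := by rw [norm_smul, Real.norm_of_nonneg hr0.le]
    have hlo' : ∀ p, ‖p‖ ≤ p₀ → κ' / q * ‖p‖ ^ 2 ≤
        alpha (Lq q L) (c + p) - alpha (Lq q L) c - ⟪(1 / (q : ℝ)) • h, p⟫ := by
      intro p hp
      rw [alpha_q hL ha hq1, alpha_q hL ha hq1, real_inner_smul_left]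
      have h2 := div_le_div_of_nonneg_right (hlo p hp) hq0.le
      calc κ' / q * ‖p‖ ^ 2 = κ' * ‖p‖ ^ 2 / q := by ring
        _ ≤ _ := h2
        _ = _ := by ring
    have hup' : ∀ p, ‖p‖ ≤ p₀ → alpha (Lq q L) (c + p) - alpha (Lq q L) c -
        ⟪(1 / (q : ℝ)) • h, p⟫ ≤ K' / q * ‖p‖ ^ 2 := by
      intro p hp
      rw [alpha_q hL ha hq1, alpha_q hL ha hq1, real_inner_smul_left]
      have h2 := div_le_div_of_nonneg_right (hup p hp) hq0.le
      calc _ = (alpha L (c + p) - alpha L c - ⟪h, p⟫) / q := by ring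
        _ ≤ _ := h2
        _ = _ := by ring
    obtain ⟨f, k, z, hf, hc1, hc2⟩ := ech hL' (κ' := κ' / q) (K' := K' / q) (by positivity) hlo' hup'
      (r • θ) (smul_ne_zero hr0.ne' hθ) (by rw [hnorm]; exact hr1)
    have hk0 : (0 : ℝ) < k := by exact_mod_cast hf.1
    rw [alpha_q hL ha hq1] at hc1
    rw [hnorm] at hc1 hc2
    rw [real_inner_smul_left, inner_sub_right, inner_smul_right, inner_smul_right] at hc2
    have h4 := hrep f k z hf
    have hc1' : cost (Sq L c q) f k ≤ k * ((κ' / q + 4 * (K' / q)) * (r * ‖θ‖) ^ 2) := hc1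
    have h5 : C₁ * cost (Sq L c q) f k ≤ C₁ * (k * ((κ' / q + 4 * (K' / q)) * (r * ‖θ‖) ^ 2)) :=
      mul_le_mul_of_nonneg_left hc1' hC₁
    have h6 : 0 ≤ (k : ℝ) * (1 / q * ⟪θ, h⟫) := by positivity
    have h7 : ⟪θ, zv z⟫ - k * (1 / q * ⟪θ, h⟫) ≤
        C₁ * (k * ((κ' / q + 4 * (K' / q)) * (r * ‖θ‖) ^ 2)) := by linarith
    have h8 : k * (κ' / q / 2 * (r * ‖θ‖) ^ 2) ≤
        r * (C₁ * (k * ((κ' / q + 4 * (K' / q)) * (r * ‖θ‖) ^ 2))) :=
      hc2.trans (mul_le_mul_of_nonneg_left h7 hr0.le)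
    have h9 : 0 < k * (r * ‖θ‖) ^ 2 / q := by positivity
    have h10 : κ' / 2 * (k * (r * ‖θ‖) ^ 2 / q) ≤ A * r * (k * (r * ‖θ‖) ^ 2 / q) := by
      rw [hA]
      calc κ' / 2 * (k * (r * ‖θ‖) ^ 2 / q) = k * (κ' / q / 2 * (r * ‖θ‖) ^ 2) := by ring
        _ ≤ _ := h8
        _ = _ := by ring
    have h11 := le_of_mul_le_mul_right h10 h9
    linarith
  intro θ hθ hkill
  rcases le_total 0 ⟪θ, h⟫ with hσ | hσ
  · exact main θ hθ hσ hkill
  · refine main (-θ) (neg_ne_zero.2 hθ) (by rw [inner_neg_left]; linarith) ?_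
    intro T z hT hTA hTz
    rw [inner_neg_left, hkill T z hT hTA hTz, neg_zero]

/-- The lower bound for the coverings of the set of Aubry points. -/
theorem cover2 {L : E n → E n → ℝ → ℝ} {κ K : ℝ} (hL : Growth L κ K) (ha : Aut L) {c h : E n}
    {κ' K' p₀ : ℝ} (hκ : 0 < κ') (hp₀ : 0 < p₀)
    (hlo : ∀ p, ‖p‖ ≤ p₀ → κ' * ‖p‖ ^ 2 ≤ alpha L (c + p) - alpha L c - ⟪h, p⟫)
    (hup : ∀ p, ‖p‖ ≤ p₀ → alpha L (c + p) - alpha L c - ⟪h, p⟫ ≤ K' * ‖p‖ ^ 2) (hK : 0 < K')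
    (hh : h ≠ 0) :
    ∃ c₁ ε₀ : ℝ, 0 < c₁ ∧ 0 < ε₀ ∧ ∀ ε : ℝ, 0 < ε → ε ≤ ε₀ → ∀ F : Finset (E n),
      (∀ x, Aub (Sp L c (alpha L c)) x → ∃ v ∈ F, ∃ z, ‖x - (v + zv z)‖ ≤ ε) →
      c₁ ≤ (F.card : ℝ) ^ n * ε ^ (2 * n - 1) := by
  obtain ⟨i₀, hi⟩ : ∃ i₀ : Fin n, h i₀ ≠ 0 := by
    by_contra hcon
    push Not at hcon
    exact hh (by ext i; exact hcon i)
  have hn : 0 < n := lt_of_le_of_lt (Nat.zero_le _) i₀.2
  obtain ⟨C₂, A, ε₀, hC₂, hA, hε₀, hcore⟩ := core2 hL ha hκ hp₀ hlo hup hK hi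
  obtain ⟨m, rfl⟩ : ∃ m, n = m + 1 := ⟨n - 1, by omega⟩
  obtain ⟨G, hG⟩ : ∃ G : ℝ, G = ((m + 1).factorial : ℝ) * ((A * ‖h‖ + C₂) * (2 * C₂) ^ m) * 16 ^ (m + 1) :=
    ⟨_, rfl⟩
  have hfac : (0 : ℝ) < ((m + 1).factorial : ℝ) := by exact_mod_cast Nat.factorial_pos _
  have hG0 : 0 < G := by
    rw [hG]
    positivity
  refine ⟨1 / G, min ε₀ (1 / 16), by positivity, by positivity, fun ε hε hεε₀ F hF => ?_⟩
  have hε0 : ε ≤ ε₀ := hεε₀.trans (min_le_left _ _)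
  have hε16 : ε ≤ 1 / 16 := hεε₀.trans (min_le_right _ _)
  obtain ⟨s, hs⟩ := slab i₀ F hε hε16
  obtain ⟨N, hN⟩ : ∃ N : ℝ, N = ((Slab F i₀ s ε).card : ℝ) := ⟨_, rfl⟩
  have hN0 : 0 ≤ N := by
    rw [hN]
    exact Nat.cast_nonneg _
  rw [← hN] at hs
  rcases det_dich2 (n := m + 1) m.succ_pos h (A := A * N) (ρ := C₂ * (N * ε)) (by positivity)
    (by positivity) with hd | hd
  · obtain ⟨θ, hθ, hk⟩ := hd
    exact absurd (fun T z h1 h2 h3 => hk T z h1 (by rw [hN]; exact h2) (by rw [hN]; exact h3))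
      (hcore ε hε hε0 F hF s θ hθ)
  · rw [Nat.add_sub_cancel] at hd
    rw [div_le_iff₀ hG0]
    have h1 : A * N * ‖h‖ + C₂ * (N * ε) ≤ N * (A * ‖h‖ + C₂) := by
      have h2 : C₂ * (N * ε) ≤ C₂ * (N * 1) := by
        refine mul_le_mul_of_nonneg_left (mul_le_mul_of_nonneg_left ?_ hN0) hC₂.le
        linarith
      calc _ ≤ A * N * ‖h‖ + C₂ * (N * 1) := by linarith
        _ = _ := by ring
    have h3 : N ^ (m + 1) ≤ (16 * ε * F.card) ^ (m + 1) := pow_le_pow_left₀ hN0 hs _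
    have e1 : 2 * (m + 1) - 1 = (m + 1) + m := by omega
    rw [e1, pow_add]
    calc (1 : ℝ) ≤ ((m + 1).factorial : ℝ) * ((A * N * ‖h‖ + C₂ * (N * ε)) * (2 * (C₂ * (N * ε))) ^ m) := hd
      _ ≤ ((m + 1).factorial : ℝ) * ((N * (A * ‖h‖ + C₂)) * (2 * (C₂ * (N * ε))) ^ m) := by
        refine mul_le_mul_of_nonneg_left (mul_le_mul_of_nonneg_right h1 (by positivity)) hfac.le
      _ = ((m + 1).factorial : ℝ) * ((A * ‖h‖ + C₂) * (2 * C₂) ^ m) * (N ^ (m + 1) * ε ^ m) := by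
        rw [pow_succ N m]
        have h4 : (2 * (C₂ * (N * ε))) ^ m = (2 * C₂) ^ m * N ^ m * ε ^ m := by
          rw [← mul_pow, ← mul_pow]
          congr 1
          ring
        rw [h4]
        ring
      _ ≤ ((m + 1).factorial : ℝ) * ((A * ‖h‖ + C₂) * (2 * C₂) ^ m) *
          ((16 * ε * F.card) ^ (m + 1) * ε ^ m) := by
        refine mul_le_mul_of_nonneg_left (mul_le_mul_of_nonneg_right h3 (by positivity)) (by positivity)
      _ = _ := by
        rw [hG, mul_pow, mul_pow]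
        ring

end Pool.Agent.H99.EA
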