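import Pool.Agent.H99.EC.Def
import Pool.Agent.H68.HDA.Base

/-!
# Project EA: box dimension of every Aubry set of an autonomous Lagrangian. Definitions.
-/

set_option autoImplicit false

open MeasureTheory Filter
open scoped RealInnerProductSpace

namespace Pool.Agent.H99.EA

open Pool.Agent.H33.AM (E Tor pr IsPeriodic)
open Pool.Agent.H68.HD
open Pool.Agent.H68.HDA (Aut Lq)
open Pool.Agent.H99.EC (D DS)

variable {n : ℕ}

/-- The potential of `L` in the time unit `1/q`, at the critical value of `c`. -/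
noncomputable def Sq (L : E n → E n → ℝ → ℝ) (c : E n) (q : ℕ) : E n → E n → ℝ :=
  Sp (Lq q L) c (alpha L c / q)

/-- `u` is a periodic subsolution of `S`. -/
structure Sol (S : E n → E n → ℝ) (u : E n → ℝ) : Prop where
  per : ∀ x z, u (x + zv z) = u x
  sub : ∀ x y, u y - u x ≤ S x y

/-- The facts at the time unit `1/q` whose constants `V`, `C`, `W` do not depend on `q`. -/
structure Uni (S : E n → E n → ℝ) (u : E n → ℝ) (q : ℕ) (V C : ℝ) (W : ℕ) (i₀ : Fin n) : Prop where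
  speed : ∀ x y, D S u x y ≤ 1 / q → ‖y - x‖ ≤ V / q
  move : ∀ (a : ℕ → E n) (e : E n), ‖e‖ ≤ 1 → DS S u a (2 * q) ≤ 1 →
    ∃ b : ℕ → E n, b 0 = a 0 ∧ b q = a q + e ∧ b (2 * q) = a (2 * q) ∧
      DS S u b (2 * q) ≤ 2 * DS S u a (2 * q) + C * ‖e‖ ^ 2
  adv : ∀ a : ℕ → E n, DS S u a (W * q) ≤ 1 → 1 ≤ |a (W * q) i₀ - a 0 i₀|

/-- There is a chain of `m` steps, `2 q ≤ m ≤ (W + 2) q`, from `x` to `y` with defect `≤ B`. -/
def Eg (S : E n → E n → ℝ) (u : E n → ℝ) (q W : ℕ) (B : ℝ) (x y : E n) : Prop :=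
  ∃ (m : ℕ) (a : ℕ → E n), 2 * q ≤ m ∧ m ≤ (W + 2) * q ∧ a 0 = x ∧ a m = y ∧ DS S u a m ≤ B

/-- The points of `F` near the hyperplanes `x_i₀ = s + j`, `j` an integer. -/
noncomputable def Slab (F : Finset (E n)) (i₀ : Fin n) (s ε : ℝ) : Finset (E n) := by
  classical
  exact F.filter fun v => ∃ j : ℤ, |v i₀ - (s + j)| ≤ 3 * ε

theorem mem_slab {F : Finset (E n)} {i₀ : Fin n} {s ε : ℝ} {v : E n} :
    v ∈ Slab F i₀ s ε ↔ v ∈ F ∧ ∃ j : ℤ, |v i₀ - (s + j)| ≤ 3 * ε := by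
  classical
  unfold Slab
  rw [Finset.mem_filter]

end Pool.Agent.H99.EA
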