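import Pool.Agent.H99.EA.Seg
import Pool.Agent.H99.EC.Few
import Pool.Agent.H99.EC.FarC

/-!
# EA Drf: the drift bound for all chains
-/

set_option autoImplicit false

open MeasureTheory Filter
open scoped RealInnerProductSpace

namespace Pool.Agent.H99.EA

open Pool.Agent.H33.AM (E Tor pr IsPeriodic)
open Pool.Agent.H68.HD
open Pool.Agent.H99.EC (D DS D_nonneg DS_nonneg DS_mono Far far_cost few)

variable {n : ℕ}

private theorem drf_step {S : E n → E n → ℝ} {a b κ K : ℝ} (hS : Pot S a b κ K) {u : E n → ℝ}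
    {M Λ : ℝ} (hu : Sub S u M Λ) : ∃ A : ℝ, 0 ≤ A ∧ ∀ x y, ‖y - x‖ ≤ A * (1 + D S u x y) := by
  have hκ := hS.pos
  have hK := hS.hK
  refine ⟨1 + (1 + 2 * |M| + K) / κ, by positivity, fun x y => ?_⟩
  have h0 := D_nonneg hu x y
  have h1 := hS.lb x y
  have h2 := abs_le.1 (hu.bd x)
  have h3 := abs_le.1 (hu.bd y)
  have h4 := le_abs_self M
  have h5 : κ * ‖y - x‖ ^ 2 ≤ D S u x y + 2 * |M| + K := by
    unfold D
    linarith
  have h6 : ‖y - x‖ ^ 2 ≤ (D S u x y + 2 * |M| + K) / κ := by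
    rw [le_div_iff₀ hκ]
    linarith
  have h7 : ‖y - x‖ ≤ 1 + ‖y - x‖ ^ 2 := by nlinarith [sq_nonneg (‖y - x‖ - 1), norm_nonneg (y - x)]
  have h8 : (D S u x y + 2 * |M| + K) / κ ≤ (1 + 2 * |M| + K) / κ * (1 + D S u x y) := by
    rw [div_mul_eq_mul_div]
    refine div_le_div_of_nonneg_right ?_ hκ.le
    have h9 := abs_nonneg M
    nlinarith [mul_nonneg h9 h0, mul_nonneg hK h0]
  have h9 : (1 + (1 + 2 * |M| + K) / κ) * (1 + D S u x y) =
      (1 + D S u x y) + (1 + 2 * |M| + K) / κ * (1 + D S u x y) := by ring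
  rw [h9]
  linarith

/-- The induction over the irregular indices. -/
private theorem drf_ind (Irr : ℕ → Prop) (h0 : Irr 0) (Φ e : ℕ → ℝ) (c₂ : ℝ) (hc : 0 ≤ c₂)
    (he : ∀ i, 0 ≤ e i) (hΦ0 : Φ 0 = 0)
    (hstep : ∀ a N : ℕ, a < N → Irr a → (∀ i, a < i → i < N → ¬ Irr i) → Φ N ≤ Φ a + e a + c₂)
    [DecidablePred Irr] (N : ℕ) :
    Φ N ≤ c₂ + ∑ i ∈ (Finset.range N).filter Irr, (c₂ + e i) := by
  induction N using Nat.strong_induction_on with
  | _ N ih =>
    rcases Nat.eq_zero_or_pos N with rfl | hN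
    · rw [hΦ0]
      simp only [Finset.range_zero, Finset.filter_empty, Finset.sum_empty]
      linarith
    · have hne : ((Finset.range N).filter Irr).Nonempty :=
        ⟨0, Finset.mem_filter.2 ⟨Finset.mem_range.2 hN, h0⟩⟩
      obtain ⟨a, ha, hmax⟩ := ((Finset.range N).filter Irr).exists_max_image id hne
      rw [Finset.mem_filter, Finset.mem_range] at ha
      have h1 := hstep a N ha.1 ha.2 (fun i hai hiN hi => by
        have h2 := hmax i (Finset.mem_filter.2 ⟨Finset.mem_range.2 hiN, hi⟩)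
        simp only [id] at h2
        omega)
      have h2 := ih a ha.1
      have h3 : ∑ i ∈ (Finset.range a).filter Irr, (c₂ + e i) + (c₂ + e a) ≤
          ∑ i ∈ (Finset.range N).filter Irr, (c₂ + e i) := by
        have h4 : a ∉ (Finset.range a).filter Irr := by
          rw [Finset.mem_filter, Finset.mem_range]
          exact fun h => lt_irrefl _ h.1
        have h5 : insert a ((Finset.range a).filter Irr) ⊆ (Finset.range N).filter Irr := by
          intro i hi
          rw [Finset.mem_insert] at hi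
          rcases hi with rfl | hi
          · exact Finset.mem_filter.2 ⟨Finset.mem_range.2 ha.1, ha.2⟩
          · rw [Finset.mem_filter, Finset.mem_range] at hi ⊢
            exact ⟨hi.1.trans ha.1, hi.2⟩
        calc ∑ i ∈ (Finset.range a).filter Irr, (c₂ + e i) + (c₂ + e a)
            = ∑ i ∈ insert a ((Finset.range a).filter Irr), (c₂ + e i) := by
              rw [Finset.sum_insert h4]
              ring
          _ ≤ _ := Finset.sum_le_sum_of_subset_of_nonneg h5 fun i _ _ => add_nonneg hc (he i)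
      linarith

theorem drift2 {S : E n → E n → ℝ} {a b κ K : ℝ} (hS : Pot S a b κ K) {u : E n → ℝ} {M Λ : ℝ}
    (hu : Sub S u M Λ) {q W : ℕ} {V C : ℝ} {i₀ : Fin n} (hq : 0 < q) (hU : Uni S u q V C W i₀)
    (hC : 1 ≤ C) {ε : ℝ} (hε : 0 < ε) (hε2 : 20 * C * ε ^ 2 ≤ 1) (hV : V / q ≤ ε)
    (F : Finset (E n)) (hF : ∀ x, Aub S x → ∃ v ∈ F, ∃ z, ‖x - (v + zv z)‖ ≤ ε) (s : ℝ) {θ : E n}
    (hloop : ∀ f k z, Cl f k z → k ≤ (Slab F i₀ s ε).card →
      (∀ i < k, Eg S u q W (20 * C * ε ^ 2) (f i) (f (i + 1))) → ⟪θ, zv z⟫ ≤ 0) :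
    ∃ C₁ : ℝ, 0 ≤ C₁ ∧ ∀ (g : ℕ → E n) (N : ℕ),
      ⟪θ, g N - g 0⟫ + 0 * (N : ℝ) ≤ C₁ * (1 + DS S u g (N + 2)) := by
  classical
  obtain ⟨κ₀, hκ₀, hfar⟩ := far_cost hS hu hε
  obtain ⟨Cf, hCf, hfew⟩ := few hS hu hκ₀ hfar
  obtain ⟨R, hR0, hR⟩ := step_bound hS hu
  obtain ⟨A, hA0, hA⟩ := drf_step hS hu
  obtain ⟨c₂, hc₂0, hseg⟩ := seg hS hu hq hU hC hε hε2 hV F s hloop
  have hq0 : (0 : ℝ) < q := by exact_mod_cast hq
  obtain ⟨δ, hδ⟩ : ∃ δ : ℝ, δ = ε ^ 2 / ((W + 4) * q) := ⟨_, rfl⟩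
  have hδ0 : 0 < δ := by
    rw [hδ]
    positivity
  have hδ1 : δ ≤ 1 := by
    rw [hδ, div_le_one (by positivity)]
    have h1 : ε ^ 2 ≤ 1 := by nlinarith [sq_nonneg ε]
    have h2 : (1 : ℝ) ≤ q := by exact_mod_cast hq
    have h3 : (0 : ℝ) ≤ W := Nat.cast_nonneg _
    nlinarith
  obtain ⟨B, hB⟩ : ∃ B : ℝ, B = ‖θ‖ * A := ⟨_, rfl⟩
  have hB0 : 0 ≤ B := by
    rw [hB]
    positivity
  obtain ⟨c₃, hc₃⟩ : ∃ c₃ : ℝ, c₃ = c₂ + ‖θ‖ * R := ⟨_, rfl⟩
  have hc₃0 : 0 ≤ c₃ := by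
    rw [hc₃]
    positivity
  have hnear : ∀ x, ¬ Far S ε x → ∃ v ∈ F, ∃ z, ‖x - (v + zv z)‖ ≤ 2 * ε := by
    intro x hx
    unfold Far at hx
    push Not at hx
    obtain ⟨a', ha', hxa⟩ := hx
    obtain ⟨v, hv, z, hz⟩ := hF a' ha'
    refine ⟨v, hv, z, ?_⟩
    calc ‖x - (v + zv z)‖ = ‖(x - a') + (a' - (v + zv z))‖ := by
          congr 1
          abel
      _ ≤ ‖x - a'‖ + ‖a' - (v + zv z)‖ := norm_add_le _ _
      _ ≤ 2 * ε := by linarith
  refine ⟨c₃ + (c₃ + B) * (1 + 1 / δ + Cf) + B, by positivity, fun g N => ?_⟩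
  obtain ⟨d, hd⟩ : ∃ d : ℕ → ℝ, ∀ i, d i = D S u (g i) (g (i + 1)) := ⟨_, fun _ => rfl⟩
  have hd0 : ∀ i, 0 ≤ d i := fun i => by
    rw [hd]
    exact D_nonneg hu _ _
  have hDS : ∀ m, DS S u g m = ∑ i ∈ Finset.range m, d i := fun m =>
    Finset.sum_congr rfl fun i _ => (hd i).symm
  obtain ⟨Irr, hIrr⟩ : ∃ Irr : ℕ → Prop, ∀ i, Irr i ↔ (i = 0 ∨ δ < d i ∨ Far S ε (g i)) :=
    ⟨_, fun _ => Iff.rfl⟩
  have hmain := drf_ind Irr ((hIrr 0).2 (Or.inl rfl)) (fun m => ⟪θ, g m - g 0⟫)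
    (fun i => B * (1 + d i)) c₃ hc₃0 (fun i => mul_nonneg hB0 (by linarith [hd0 i]))
    (by simp) (fun a' N' haN _ hreg => by
      have hs : ⟪θ, g (a' + 1) - g a'⟫ ≤ B * (1 + d a') := by
        have h1 := hA (g a') (g (a' + 1))
        rw [← hd] at h1
        have h2 : ⟪θ, g (a' + 1) - g a'⟫ ≤ ‖θ‖ * (A * (1 + d a')) :=
          (real_inner_le_norm _ _).trans (mul_le_mul_of_nonneg_left h1 (norm_nonneg _))
        rw [hB]
        linarith
      have hreg' : ∀ i, a' < i → i < N' → d i ≤ δ ∧ ¬ Far S ε (g i) := by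
        intro i h1 h2
        have h3 := hreg i h1 h2
        rw [hIrr] at h3
        push Not at h3
        exact h3.2
      have hsegm : ⟪θ, g N' - g (a' + 1)⟫ ≤ c₃ := by
        rcases Nat.lt_or_ge (a' + 1) N' with h1 | h1
        · obtain ⟨m, rfl⟩ : ∃ m, N' = m + 1 := ⟨N' - 1, by omega⟩
          have h2 := hseg g (a' + 1) m (by omega) (fun i hi hi' => by
              rw [← hd, ← hδ]
              exact (hreg' i (by omega) (by omega)).1) (fun i hi hi' =>
              hnear _ (hreg' i (by omega) (by omega)).2)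
          have h3 : ‖g (m + 1) - g m‖ ≤ R := hR _ _ (by
            have h4 := (hreg' m (by omega) (by omega)).1
            rw [hd] at h4
            exact h4.trans hδ1)
          have h4 : ⟪θ, g (m + 1) - g m⟫ ≤ ‖θ‖ * R :=
            (real_inner_le_norm _ _).trans (mul_le_mul_of_nonneg_left h3 (norm_nonneg _))
          have h5 : g (m + 1) - g (a' + 1) = (g m - g (a' + 1)) + (g (m + 1) - g m) := by abel
          rw [h5, inner_add_right, hc₃]
          linarith
        · have h2 : N' = a' + 1 := by omega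
          rw [h2, sub_self, inner_zero_right]
          exact hc₃0
      have h7 : g N' - g 0 = (g a' - g 0) + (g (a' + 1) - g a') + (g N' - g (a' + 1)) := by abel
      show ⟪θ, g N' - g 0⟫ ≤ ⟪θ, g a' - g 0⟫ + B * (1 + d a') + c₃
      rw [h7, inner_add_right, inner_add_right]
      linarith) N
  -- counting
  obtain ⟨X, hX⟩ : ∃ X : ℝ, X = DS S u g (N + 2) := ⟨_, rfl⟩
  have hX0 : 0 ≤ X := by
    rw [hX]
    exact DS_nonneg hu _ _
  have hmono : ∑ i ∈ Finset.range N, d i ≤ X := by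
    rw [hX, ← hDS]
    exact DS_mono hu g (by omega)
  have hcount : (((Finset.range N).filter Irr).card : ℝ) ≤ 1 + 1 / δ * X + Cf * (1 + X) := by
    have h1 : (((Finset.range N).filter Irr).card : ℝ) = ∑ i ∈ Finset.range N, if Irr i then (1 : ℝ) else 0 := by
      rw [Finset.sum_boole]
    have hδ3 : 0 < 1 / δ := by positivity
    have h2 : ∀ i ∈ Finset.range N, (if Irr i then (1 : ℝ) else 0) ≤
        (if i = 0 then 1 else 0) + 1 / δ * d i + (if Far S ε (g i) then 1 else 0) := by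
      intro i _
      have p2 := mul_nonneg hδ3.le (hd0 i)
      have p6 : (0 : ℝ) ≤ if i = 0 then 1 else 0 := by
        split_ifs
        · exact zero_le_one
        · exact le_rfl
      have p7 : (0 : ℝ) ≤ if Far S ε (g i) then 1 else 0 := by
        split_ifs
        · exact zero_le_one
        · exact le_rfl
      by_cases hi : Irr i
      · rw [if_pos hi]
        rcases (hIrr i).1 hi with h | h | h
        · rw [if_pos h]
          linarith
        · have h4 : 1 ≤ 1 / δ * d i := by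
            rw [one_div, inv_mul_eq_div, le_div_iff₀ hδ0, one_mul]
            exact h.le
          linarith
        · rw [if_pos h]
          linarith
      · rw [if_neg hi]
        linarith
    rw [h1]
    refine (Finset.sum_le_sum h2).trans ?_
    rw [Finset.sum_add_distrib, Finset.sum_add_distrib, ← Finset.mul_sum]
    have q1 : ∑ i ∈ Finset.range N, (if i = 0 then (1 : ℝ) else 0) ≤ 1 := by
      rw [Finset.sum_ite_eq']
      split_ifs
      · exact le_rfl
      · exact zero_le_one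
    have q5 : ∑ i ∈ Finset.range N, (if Far S ε (g i) then (1 : ℝ) else 0) ≤ Cf * (1 + X) := by
      rw [Finset.sum_boole]
      refine (hfew g N).trans (mul_le_mul_of_nonneg_left ?_ hCf)
      rw [hDS]
      linarith
    have r3 := mul_le_mul_of_nonneg_left hmono hδ3.le
    linarith
  have hW : ∑ i ∈ (Finset.range N).filter Irr, (c₃ + B * (1 + d i)) ≤
      (c₃ + B) * (1 + 1 / δ * X + Cf * (1 + X)) + B * X := by
    have h1 : ∑ i ∈ (Finset.range N).filter Irr, (c₃ + B * (1 + d i)) =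
        (c₃ + B) * ((Finset.range N).filter Irr).card + B * ∑ i ∈ (Finset.range N).filter Irr, d i := by
      rw [Finset.mul_sum, mul_comm (c₃ + B), ← nsmul_eq_mul, ← Finset.sum_const, ← Finset.sum_add_distrib]
      refine Finset.sum_congr rfl fun i _ => ?_
      ring
    have h2 : ∑ i ∈ (Finset.range N).filter Irr, d i ≤ X :=
      (Finset.sum_le_sum_of_subset_of_nonneg (Finset.filter_subset _ _) fun i _ _ => hd0 i).trans
        hmono
    rw [h1]
    exact add_le_add (mul_le_mul_of_nonneg_left hcount (by positivity))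
      (mul_le_mul_of_nonneg_left h2 hB0)
  rw [← hX]
  have hmain' : ⟪θ, g N - g 0⟫ ≤ c₃ + ∑ i ∈ (Finset.range N).filter Irr, (c₃ + B * (1 + d i)) := hmain
  have hδ3 : 0 ≤ 1 / δ := by positivity
  have s1 : 0 ≤ c₃ + B := by positivity
  have s2 : (c₃ + B) * (1 + 1 / δ * X + Cf * (1 + X)) ≤
      (c₃ + B) * ((1 + 1 / δ + Cf) * (1 + X)) := by
    refine mul_le_mul_of_nonneg_left ?_ s1
    nlinarith
  calc ⟪θ, g N - g 0⟫ + 0 * (N : ℝ) ≤ c₃ + ((c₃ + B) * ((1 + 1 / δ + Cf) * (1 + X)) + B * X) := by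
        linarith
    _ ≤ c₃ * (1 + X) + (c₃ + B) * ((1 + 1 / δ + Cf) * (1 + X)) + B * (1 + X) := by
        nlinarith [mul_nonneg hc₃0 hX0]
    _ = _ := by ring

end Pool.Agent.H99.EA
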