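import Pool.Agent.H99.EA.Rso

/-!
# Project EA: all lower bounds together, for coverings of the Aubry set in the torus
-/

set_option autoImplicit false

open MeasureTheory Filter
open scoped RealInnerProductSpace

namespace Pool.Agent.H99.EA

open Pool.Agent.H33.AM (E Tor pr IsPeriodic)
open Pool.Agent.H68.HD
open Pool.Agent.H68.HDA (Aut)
open Pool.Agent.H99.EC (cover_ge lift_cover quad_lower)

variable {n : ℕ}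

/-- The lower bounds for the number `N` of balls of radius `ε`, with the constant `c₁`. -/
def Bnd (L : E n → E n → ℝ → ℝ) (h : E n) (c₁ N ε : ℝ) : Prop :=
  c₁ ≤ N ^ (n + 1) * ε ^ n ∧
  (∀ (ζ : Fin n → ℤ) (m : ℤ), ζ ≠ 0 → ⟪(zv ζ : E n), h⟫ = m → c₁ ≤ ‖(zv ζ : E n)‖ * (N * ε)) ∧
  (Aut L → h ≠ 0 → c₁ ≤ N ^ n * ε ^ (2 * n - 1) ∧
    ∀ ζ : Fin n → ℤ, ζ ≠ 0 → ⟪(zv ζ : E n), h⟫ = 0 → c₁ ≤ ‖(zv ζ : E n)‖ * (N * ε ^ 2))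

private theorem mai_mono {L : E n → E n → ℝ → ℝ} {h : E n} {c₁ c₁' N ε : ℝ} (hc : c₁' ≤ c₁)
    (hb : Bnd L h c₁ N ε) : Bnd L h c₁' N ε :=
  ⟨hc.trans hb.1, fun ζ m hζ hm => hc.trans (hb.2.1 ζ m hζ hm),
    fun ha hh => ⟨hc.trans (hb.2.2 ha hh).1, fun ζ hζ hm => hc.trans ((hb.2.2 ha hh).2 ζ hζ hm)⟩⟩

/-- All bounds for the coverings in `ℝⁿ`. -/
theorem cover_all {L : E n → E n → ℝ → ℝ} {κ K : ℝ} (hn : 0 < n) (hL : Growth L κ K) {c h : E n}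
    {κ' K' p₀ : ℝ} (hκ : 0 < κ') (hp₀ : 0 < p₀)
    (hlo : ∀ p, ‖p‖ ≤ p₀ → κ' * ‖p‖ ^ 2 ≤ alpha L (c + p) - alpha L c - ⟪h, p⟫)
    (hup : ∀ p, ‖p‖ ≤ p₀ → alpha L (c + p) - alpha L c - ⟪h, p⟫ ≤ K' * ‖p‖ ^ 2) (hK : 0 < K') :
    ∃ c₁ ε₀ : ℝ, 0 < c₁ ∧ 0 < ε₀ ∧ ∀ ε : ℝ, 0 < ε → ε ≤ ε₀ → ∀ F : Finset (E n),
      (∀ x, Aub (Sp L c (alpha L c)) x → ∃ v ∈ F, ∃ z, ‖x - (v + zv z)‖ ≤ ε) →
      Bnd L h c₁ F.card ε := by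
  obtain ⟨c₁, ε₁, hc₁, hε₁, h1⟩ := cover_ge hL hn hκ hp₀ hlo hup hK
  obtain ⟨c₂, ε₂, hc₂, hε₂, h2⟩ := cover_res hL hκ hp₀ hlo hup hK
  have h3 : ∃ c₃ ε₃ : ℝ, 0 < c₃ ∧ 0 < ε₃ ∧ (Aut L → h ≠ 0 → ∀ ε : ℝ, 0 < ε → ε ≤ ε₃ →
      ∀ F : Finset (E n), (∀ x, Aub (Sp L c (alpha L c)) x → ∃ v ∈ F, ∃ z, ‖x - (v + zv z)‖ ≤ ε) →
      c₃ ≤ (F.card : ℝ) ^ n * ε ^ (2 * n - 1) ∧
      ∀ ζ : Fin n → ℤ, ζ ≠ 0 → ⟪(zv ζ : E n), h⟫ = 0 →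
        c₃ ≤ ‖(zv ζ : E n)‖ * (F.card * ε ^ 2)) := by
    by_cases ha : Aut L
    · by_cases hh : h ≠ 0
      · obtain ⟨c₃, ε₃, hc₃, hε₃, h3⟩ := cover2 hL ha hκ hp₀ hlo hup hK hh
        obtain ⟨c₄, ε₄, hc₄, hε₄, h4⟩ := cover2_res hL ha hκ hp₀ hlo hup hK hh
        refine ⟨min c₃ c₄, min ε₃ ε₄, lt_min hc₃ hc₄, lt_min hε₃ hε₄,
          fun _ _ ε hε hεε F hF => ⟨?_, fun ζ hζ hm => ?_⟩⟩
        · exact (min_le_left _ _).trans (h3 ε hε (hεε.trans (min_le_left _ _)) F hF)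
        · exact (min_le_right _ _).trans (h4 ε hε (hεε.trans (min_le_right _ _)) F hF ζ hζ hm)
      · exact ⟨1, 1, one_pos, one_pos, fun _ hh' => absurd hh' hh⟩
    · exact ⟨1, 1, one_pos, one_pos, fun ha' => absurd ha' ha⟩
  obtain ⟨c₃, ε₃, hc₃, hε₃, h3⟩ := h3
  refine ⟨min c₁ (min c₂ c₃), min ε₁ (min ε₂ ε₃), lt_min hc₁ (lt_min hc₂ hc₃),
    lt_min hε₁ (lt_min hε₂ hε₃), fun ε hε hεε F hF => ?_⟩
  have e1 : ε ≤ ε₁ := hεε.trans (min_le_left _ _)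
  have e2 : ε ≤ ε₂ := hεε.trans ((min_le_right _ _).trans (min_le_left _ _))
  have e3 : ε ≤ ε₃ := hεε.trans ((min_le_right _ _).trans (min_le_right _ _))
  have g1 : min c₁ (min c₂ c₃) ≤ c₁ := min_le_left _ _
  have g2 : min c₁ (min c₂ c₃) ≤ c₂ := (min_le_right _ _).trans (min_le_left _ _)
  have g3 : min c₁ (min c₂ c₃) ≤ c₃ := (min_le_right _ _).trans (min_le_right _ _)
  exact ⟨g1.trans (h1 ε hε e1 F hF).1, fun ζ m hζ hm => g2.trans (h2 ε hε e2 F hF ζ m hζ hm),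
    fun ha hh => ⟨g3.trans (h3 ha hh ε hε e3 F hF).1,
      fun ζ hζ hm => g3.trans ((h3 ha hh ε hε e3 F hF).2 ζ hζ hm)⟩⟩

theorem local_all {L : E n → E n → ℝ → ℝ} {κ K : ℝ} (hn : 0 < n) (hL : Growth L κ K) {c h : E n}
    {κ' K' p₀ : ℝ} (hκ : 0 < κ') (hp₀ : 0 < p₀)
    (hlo : ∀ p, ‖p‖ ≤ p₀ → κ' * ‖p‖ ^ 2 ≤ alpha L (c + p) - alpha L c - ⟪h, p⟫)
    (hup : ∀ p, ‖p‖ ≤ p₀ → alpha L (c + p) - alpha L c - ⟪h, p⟫ ≤ K' * ‖p‖ ^ 2) :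
    ∃ c₁ ε₀ : ℝ, 0 < c₁ ∧ 0 < ε₀ ∧ ∀ ε : ℝ, 0 < ε → ε ≤ ε₀ → ∀ F : Finset (Tor n),
      (∀ x ∈ aubry L c, ∃ v ∈ F, dist x v ≤ ε) → Bnd L h c₁ F.card ε := by
  have hK : 0 < K' := by
    obtain ⟨p, hp⟩ : ∃ p : E n, ‖p‖ = p₀ := by
      refine ⟨p₀ • EuclideanSpace.single ⟨0, hn⟩ (1 : ℝ), ?_⟩
      rw [norm_smul, Real.norm_of_nonneg hp₀.le]
      simp
    have h1 := (hlo p hp.le).trans (hup p hp.le)
    rw [hp] at h1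
    have h2 : 0 < p₀ ^ 2 := by positivity
    have h3 := le_of_mul_le_mul_right h1 h2
    linarith
  obtain ⟨c₁, ε₀, hc₁, hε₀, hcov⟩ := cover_all hn hL hκ hp₀ hlo hup hK
  have hn1 : (1 : ℝ) ≤ n := by exact_mod_cast hn
  have hs1 : 1 ≤ Real.sqrt n := by
    rw [Real.one_le_sqrt]
    exact hn1
  have hs0 : 0 < Real.sqrt n := lt_of_lt_of_le one_pos hs1
  obtain ⟨Q, hQ⟩ : ∃ Q : ℝ, Q = Real.sqrt n ^ (2 * n) := ⟨_, rfl⟩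
  have hQ0 : 0 < Q := by
    rw [hQ]
    positivity
  have hpow : ∀ j : ℕ, j ≤ 2 * n → Real.sqrt n ^ j ≤ Q := fun j hj => by
    rw [hQ]
    exact pow_le_pow_right₀ hs1 hj
  refine ⟨c₁ / Q, ε₀ / Real.sqrt n, by positivity, by positivity, fun ε hε hεε₀ F hF => ?_⟩
  obtain ⟨F', hcard, hF'⟩ := lift_cover hε.le F hF
  have hcard' : (F'.card : ℝ) ≤ F.card := by exact_mod_cast hcard
  have hε1 : Real.sqrt n * ε ≤ ε₀ := by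
    rw [le_div_iff₀ hs0] at hεε₀
    linarith
  obtain ⟨b1, b2, b3⟩ := hcov (Real.sqrt n * ε) (by positivity) hε1 F'
    (fun x hx => hF' x (aubry_of_aub hL c hx))
  have key : ∀ (A : ℝ) (i j : ℕ), 0 ≤ A → j ≤ 2 * n → c₁ ≤ A * ((F'.card : ℝ) ^ i * (Real.sqrt n * ε) ^ j) →
      c₁ / Q ≤ A * ((F.card : ℝ) ^ i * ε ^ j) := by
    intro A i j hA hj h1
    rw [div_le_iff₀ hQ0]
    calc c₁ ≤ A * ((F'.card : ℝ) ^ i * (Real.sqrt n * ε) ^ j) := h1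
      _ ≤ A * ((F.card : ℝ) ^ i * (Real.sqrt n * ε) ^ j) :=
        mul_le_mul_of_nonneg_left (mul_le_mul_of_nonneg_right
          (pow_le_pow_left₀ (Nat.cast_nonneg _) hcard' _) (by positivity)) hA
      _ = A * ((F.card : ℝ) ^ i * ε ^ j) * Real.sqrt n ^ j := by
        rw [mul_pow]
        ring
      _ ≤ _ := mul_le_mul_of_nonneg_left (hpow j hj) (by positivity)
  refine ⟨?_, fun ζ m hζ hm => ?_, fun ha hh => ⟨?_, fun ζ hζ hm => ?_⟩⟩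
  · have h1 := key 1 (n + 1) n one_pos.le (by omega) (by rw [one_mul]; exact b1)
    rwa [one_mul] at h1
  · have h1 := key ‖(zv ζ : E n)‖ 1 1 (norm_nonneg _) (by omega) (by
      rw [pow_one, pow_one]
      exact b2 ζ m hζ hm)
    rwa [pow_one, pow_one] at h1
  · have h1 := key 1 n (2 * n - 1) one_pos.le (by omega) (by
      rw [one_mul]
      exact (b3 ha hh).1)
    rwa [one_mul] at h1
  · have h1 := key ‖(zv ζ : E n)‖ 1 2 (norm_nonneg _) (by omega) (by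
      rw [pow_one]
      exact (b3 ha hh).2 ζ hζ hm)
    rwa [pow_one] at h1

theorem c2_all {L : E n → E n → ℝ → ℝ} {κ K : ℝ} (hn : 0 < n) (hL : Growth L κ K)
    (h2 : ContDiff ℝ 2 (alpha L)) (c : E n)
    (hpos : ∀ p, p ≠ 0 → 0 < fderiv ℝ (fderiv ℝ (alpha L)) c p p) :
    ∃ c₁ ε₀ : ℝ, 0 < c₁ ∧ 0 < ε₀ ∧ ∀ ε : ℝ, 0 < ε → ε ≤ ε₀ → ∀ F : Finset (Tor n),
      (∀ x ∈ aubry L c, ∃ v ∈ F, dist x v ≤ ε) → Bnd L (gradient (alpha L) c) c₁ F.card ε := by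
  obtain ⟨K', hK', hup⟩ := quad_upper h2 c
  obtain ⟨κ', p₀, hκ', hp₀, hlo⟩ := quad_lower h2 c hpos
  refine local_all hn hL (κ' := κ') (K' := K') (p₀ := min p₀ 1) hκ' (lt_min hp₀ one_pos)
    (fun p hp => hlo p (hp.trans (min_le_left _ _))) (fun p hp => ?_)
  have := hup p (hp.trans (min_le_right _ _))
  linarith

end Pool.Agent.H99.EA
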