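import Pool.Agent.H99.EA.Def

/-!
# EA Mrk: crossings and marks (elementary)

`cross`: if `f m ≥ f 0 + 1`: `j = ⌈f 0 - s⌉`, so `f 0 ≤ s + j < f 0 + 1 ≤ f m`; take the first `t` with `s + j ≤ f t` (`Nat.find`).  The other case is symmetric
(`-f`, `-s`).
`marks`: greedy; `t_0` from the window at `a + q`; from `t_j` go to a mark in the window at `t_j + 2 q` as long as `t_j + (W + 3) q ≤ b`.
-/

set_option autoImplicit false

namespace Pool.Agent.H99.EA

private lemma mrk_cross_up {f : ℕ → ℝ} {m : ℕ} {ε : ℝ} (s : ℝ) (h : ∀ i < m, |f (i + 1) - f i| ≤ ε)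
    (h1 : f 0 + 1 ≤ f m) : ∃ t ≤ m, ∃ j : ℤ, |f t - (s + j)| ≤ ε := by
  classical
  have hm : 0 < m := by
    rcases Nat.eq_zero_or_pos m with rfl | hm
    · linarith
    · exact hm
  have hε : 0 ≤ ε := (abs_nonneg _).trans (h 0 hm)
  have hj1 : f 0 - s ≤ (⌈f 0 - s⌉ : ℝ) := Int.le_ceil _
  have hj2 : (⌈f 0 - s⌉ : ℝ) < f 0 - s + 1 := Int.ceil_lt_add_one _
  have hex : ∃ t, s + (⌈f 0 - s⌉ : ℝ) ≤ f t := ⟨m, by linarith⟩
  have hspec := Nat.find_spec hex
  have hle : Nat.find hex ≤ m := Nat.find_min' hex (by linarith)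
  refine ⟨Nat.find hex, hle, ⌈f 0 - s⌉, ?_⟩
  rcases Nat.eq_zero_or_pos (Nat.find hex) with h0 | h0
  · rw [h0] at hspec ⊢
    rw [abs_le]
    constructor <;> linarith
  · obtain ⟨t, ht⟩ := Nat.exists_eq_succ_of_ne_zero h0.ne'
    have hlt : t < Nat.find hex := by omega
    have hn : ¬ s + (⌈f 0 - s⌉ : ℝ) ≤ f t := Nat.find_min hex hlt
    have htm : t < m := by omega
    have hb := (abs_le.1 (h t htm)).2
    rw [ht] at hspec ⊢
    rw [Nat.succ_eq_add_one] at hspec ⊢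
    rw [not_le] at hn
    rw [abs_le]
    constructor <;> linarith

theorem cross {f : ℕ → ℝ} {m : ℕ} {ε : ℝ} (s : ℝ) (h : ∀ i < m, |f (i + 1) - f i| ≤ ε)
    (h1 : 1 ≤ |f m - f 0|) : ∃ t ≤ m, ∃ j : ℤ, |f t - (s + j)| ≤ ε := by
  rcases le_abs'.1 h1 with h2 | h2
  · have h3 : ∀ i < m, |(fun i => -f i) (i + 1) - (fun i => -f i) i| ≤ ε := by
      intro i hi
      have h4 : (fun i => -f i) (i + 1) - (fun i => -f i) i = -(f (i + 1) - f i) := by
        show -f (i + 1) - -f i = _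
        ring
      rw [h4, abs_neg]
      exact h i hi
    obtain ⟨t, ht, j, hj⟩ := mrk_cross_up (f := fun i => -f i) (-s) h3 (by
      show -f 0 + 1 ≤ -f m
      linarith)
    refine ⟨t, ht, -j, ?_⟩
    have h5 : f t - (s + ((-j : ℤ) : ℝ)) = -(-f t - (-s + (j : ℝ))) := by
      push_cast
      ring
    rw [h5, abs_neg]
    exact hj
  · exact mrk_cross_up s h (by linarith)

private lemma mrk_chain {Mk : ℕ → Prop} {q W a b : ℕ} (hq : 0 < q)
    (h : ∀ i, a ≤ i → i + W * q ≤ b → ∃ t, i ≤ t ∧ t ≤ i + W * q ∧ Mk t) (k : ℕ) :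
    ∀ t, b - t ≤ k → a ≤ t → Mk t → t + q ≤ b →
      ∃ (N : ℕ) (s : ℕ → ℕ), s 0 = t ∧ (∀ j ≤ N, Mk (s j)) ∧
        (∀ j < N, s j + 2 * q ≤ s (j + 1) ∧ s (j + 1) ≤ s j + (W + 2) * q) ∧
        s N + q ≤ b ∧ b ≤ s N + (W + 3) * q := by
  induction k with
  | zero =>
    intro t hk _ _ htb
    omega
  | succ k ih =>
    intro t hk hat hMt htb
    rcases le_or_gt b (t + (W + 3) * q) with hb | hb
    · exact ⟨0, fun _ => t, rfl, fun _ _ => hMt, fun j hj => absurd hj (Nat.not_lt_zero j), htb, hb⟩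
    · have e2 : (W + 3) * q = W * q + 3 * q := by ring
      have e3 : (W + 2) * q = W * q + 2 * q := by ring
      obtain ⟨t', h1, h2, h3⟩ := h (t + 2 * q) (by omega) (by omega)
      obtain ⟨N, s, hs0, hsM, hst, hsN, hsb⟩ := ih t' (by omega) (by omega) h3 (by omega)
      refine ⟨N + 1, fun j => Nat.casesOn j t s, rfl, ?_, ?_, hsN, hsb⟩
      · intro j hj
        cases j with
        | zero => exact hMt
        | succ j => exact hsM j (by omega)
      · intro j hj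
        cases j with
        | zero =>
          show t + 2 * q ≤ s 0 ∧ s 0 ≤ t + (W + 2) * q
          rw [hs0]
          constructor <;> omega
        | succ j => exact hst j (by omega)

theorem marks {Mk : ℕ → Prop} {q W a b : ℕ} (hq : 0 < q) (hab : a + (W + 2) * q ≤ b)
    (h : ∀ i, a ≤ i → i + W * q ≤ b → ∃ t, i ≤ t ∧ t ≤ i + W * q ∧ Mk t) :
    ∃ (N : ℕ) (t : ℕ → ℕ), a + q ≤ t 0 ∧ t 0 ≤ a + (W + 1) * q ∧ (∀ j ≤ N, Mk (t j)) ∧
      (∀ j < N, t j + 2 * q ≤ t (j + 1) ∧ t (j + 1) ≤ t j + (W + 2) * q) ∧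
      t N + q ≤ b ∧ b ≤ t N + (W + 3) * q := by
  have e1 : (W + 1) * q = W * q + q := by ring
  have e2 : (W + 2) * q = W * q + 2 * q := by ring
  obtain ⟨t, h1, h2, h3⟩ := h (a + q) (by omega) (by omega)
  obtain ⟨N, s, hs0, hsM, hst, hsN, hsb⟩ := mrk_chain hq h (b - t) t le_rfl (by omega) h3 (by omega)
  refine ⟨N, s, ?_, ?_, hsM, hst, hsN, hsb⟩
  · rw [hs0]
    exact h1
  · rw [hs0]
    omega

end Pool.Agent.H99.EA
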