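import Pool.Agent.H99.EA.Cor
import Pool.Agent.H99.EC.Main

/-!
# EA Rso: resonant rotation vectors
-/

set_option autoImplicit false

open MeasureTheory Filter
open scoped RealInnerProductSpace

namespace Pool.Agent.H99.EA

open Pool.Agent.H33.AM (E Tor pr IsPeriodic)
open Pool.Agent.H68.HD
open Pool.Agent.H68.HDA (Aut)
open Pool.Agent.H99.EC (core)

variable {n : ℕ}

private theorem rso_int (ζ z : Fin n → ℤ) : ⟪(zv ζ : E n), zv z⟫ = ((∑ i, ζ i * z i : ℤ) : ℝ) := by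
  rw [PiLp.inner_apply]
  push_cast
  refine Finset.sum_congr rfl fun i _ => ?_
  simp [zv, mul_comm]

private theorem rso_ne {ζ : Fin n → ℤ} (hζ : ζ ≠ 0) : (zv ζ : E n) ≠ 0 := by
  intro h
  apply hζ
  funext i
  have h1 := congrArg (fun v : E n => v i) h
  simpa [zv] using h1

theorem cover_res {L : E n → E n → ℝ → ℝ} {κ K : ℝ} (hL : Growth L κ K) {c h : E n}
    {κ' K' p₀ : ℝ} (hκ : 0 < κ') (hp₀ : 0 < p₀)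
    (hlo : ∀ p, ‖p‖ ≤ p₀ → κ' * ‖p‖ ^ 2 ≤ alpha L (c + p) - alpha L c - ⟪h, p⟫)
    (hup : ∀ p, ‖p‖ ≤ p₀ → alpha L (c + p) - alpha L c - ⟪h, p⟫ ≤ K' * ‖p‖ ^ 2) (hK : 0 < K') :
    ∃ c₁ ε₀ : ℝ, 0 < c₁ ∧ 0 < ε₀ ∧ ∀ ε : ℝ, 0 < ε → ε ≤ ε₀ → ∀ F : Finset (E n),
      (∀ x, Aub (Sp L c (alpha L c)) x → ∃ v ∈ F, ∃ z, ‖x - (v + zv z)‖ ≤ ε) →
      ∀ (ζ : Fin n → ℤ) (m : ℤ), ζ ≠ 0 → ⟪(zv ζ : E n), h⟫ = m → c₁ ≤ ‖(zv ζ : E n)‖ * (F.card * ε) := by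
  obtain ⟨C₂, ε₀, hC₂, hε₀, hcore⟩ := core hL hκ hp₀ hlo hup hK
  refine ⟨1 / C₂, ε₀, by positivity, hε₀, fun ε hε hεε₀ F hF ζ m hζ hm => ?_⟩
  by_contra hcon
  push Not at hcon
  have h1 : ‖(zv ζ : E n)‖ * (C₂ * (F.card * ε)) < 1 := by
    rw [lt_div_iff₀ hC₂] at hcon
    linarith
  refine hcore ε hε hεε₀ F hF (zv ζ) (-m) (rso_ne hζ) ?_
  intro k z _ _ hkz
  have h2 : ⟪(zv ζ : E n), zv z⟫ + (-(m : ℝ)) * k = ((∑ i, ζ i * z i - m * k : ℤ) : ℝ) := by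
    rw [rso_int]
    push_cast
    ring
  have h3 : ⟪(zv ζ : E n), zv z⟫ + (-(m : ℝ)) * k = ⟪(zv ζ : E n), zv z - (k : ℝ) • h⟫ := by
    rw [inner_sub_right, inner_smul_right, hm]
    ring
  have h4 : |((∑ i, ζ i * z i - m * k : ℤ) : ℝ)| < 1 := by
    rw [← h2, h3]
    exact ((abs_real_inner_le_norm _ _).trans
      (mul_le_mul_of_nonneg_left hkz (norm_nonneg _))).trans_lt h1
  have h5 : ∑ i, ζ i * z i - m * k = 0 := by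
    rw [← Int.abs_lt_one_iff]
    exact_mod_cast h4
  rw [h2, h5, Int.cast_zero]

theorem cover2_res {L : E n → E n → ℝ → ℝ} {κ K : ℝ} (hL : Growth L κ K) (ha : Aut L) {c h : E n}
    {κ' K' p₀ : ℝ} (hκ : 0 < κ') (hp₀ : 0 < p₀)
    (hlo : ∀ p, ‖p‖ ≤ p₀ → κ' * ‖p‖ ^ 2 ≤ alpha L (c + p) - alpha L c - ⟪h, p⟫)
    (hup : ∀ p, ‖p‖ ≤ p₀ → alpha L (c + p) - alpha L c - ⟪h, p⟫ ≤ K' * ‖p‖ ^ 2) (hK : 0 < K')
    (hh : h ≠ 0) :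
    ∃ c₁ ε₀ : ℝ, 0 < c₁ ∧ 0 < ε₀ ∧ ∀ ε : ℝ, 0 < ε → ε ≤ ε₀ → ∀ F : Finset (E n),
      (∀ x, Aub (Sp L c (alpha L c)) x → ∃ v ∈ F, ∃ z, ‖x - (v + zv z)‖ ≤ ε) →
      ∀ ζ : Fin n → ℤ, ζ ≠ 0 → ⟪(zv ζ : E n), h⟫ = 0 → c₁ ≤ ‖(zv ζ : E n)‖ * (F.card * ε ^ 2) := by
  obtain ⟨i₀, hi⟩ : ∃ i₀ : Fin n, h i₀ ≠ 0 := by
    by_contra hcon
    push Not at hcon
    exact hh (by ext i; exact hcon i)
  obtain ⟨C₂, A, ε₀, hC₂, hA, hε₀, hcore⟩ := core2 hL ha hκ hp₀ hlo hup hK hi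
  refine ⟨1 / (16 * C₂), min ε₀ (1 / 16), by positivity, by positivity,
    fun ε hε hεε₀ F hF ζ hζ hm => ?_⟩
  have hε0 : ε ≤ ε₀ := hεε₀.trans (min_le_left _ _)
  have hε16 : ε ≤ 1 / 16 := hεε₀.trans (min_le_right _ _)
  by_contra hcon
  push Not at hcon
  obtain ⟨s, hs⟩ := slab i₀ F hε hε16
  have h1 : ‖(zv ζ : E n)‖ * (C₂ * ((Slab F i₀ s ε).card * ε)) < 1 := by
    rw [lt_div_iff₀ (by positivity)] at hcon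
    calc ‖(zv ζ : E n)‖ * (C₂ * ((Slab F i₀ s ε).card * ε))
        ≤ ‖(zv ζ : E n)‖ * (C₂ * (16 * ε * F.card * ε)) := by
          refine mul_le_mul_of_nonneg_left (mul_le_mul_of_nonneg_left
            (mul_le_mul_of_nonneg_right hs hε.le) hC₂.le) (norm_nonneg _)
      _ = ‖(zv ζ : E n)‖ * (F.card * ε ^ 2) * (16 * C₂) := by ring
      _ < 1 := hcon
  refine hcore ε hε hε0 F hF s (zv ζ) (rso_ne hζ) ?_
  intro T z _ _ hTz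
  have h3 : ⟪(zv ζ : E n), zv z⟫ = ⟪(zv ζ : E n), zv z - T • h⟫ := by
    rw [inner_sub_right, inner_smul_right, hm]
    ring
  have h4 : |((∑ i, ζ i * z i : ℤ) : ℝ)| < 1 := by
    rw [← rso_int, h3]
    exact ((abs_real_inner_le_norm _ _).trans
      (mul_le_mul_of_nonneg_left hTz (norm_nonneg _))).trans_lt h1
  have h5 : ∑ i, ζ i * z i = 0 := by
    rw [← Int.abs_lt_one_iff]
    exact_mod_cast h4
  rw [rso_int, h5, Int.cast_zero]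

end Pool.Agent.H99.EA
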