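import Pool.Agent.H99.EA.Cat

/-!
# EA SgB: the edges between two marked points

`move` for the chains `fun l => g (t - q + l)`, `e = y - g t`, and `fun l => g (t' - q + l)`, `e = y' - g t'` (`‖e‖ ≤ 2 ε ≤ 1`, their defects are
`≤ 2 q ε² / ((W + 4) q) ≤ ε²`): chains `b`, `b'` of defect `≤ 2 ε² + 4 C ε²`.  The chain `b (q), ..., b (2 q) = g (t + q), ..., g (t' - q) = b' 0, ..., b' q` (`cat2` twice) has
`t' - t` steps and defect `≤ 2 (2 ε² + 4 C ε²) + ε² ≤ 20 C ε²` (the defect of a part of a chain is at most that of the chain, `D_nonneg`).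
-/

set_option autoImplicit false

open MeasureTheory Filter
open scoped RealInnerProductSpace

namespace Pool.Agent.H99.EA

open Pool.Agent.H33.AM (E Tor pr IsPeriodic)
open Pool.Agent.H68.HD
open Pool.Agent.H99.EC (D DS D_nonneg DS_nonneg DS_mono)

variable {n : ℕ}

/-- The defect of a chain of `N` steps all of whose defects are at most `δ`. -/
private theorem SgB_le {S : E n → E n → ℝ} {u : E n → ℝ} {f : ℕ → E n} {N : ℕ} {δ : ℝ}
    (h : ∀ i < N, D S u (f i) (f (i + 1)) ≤ δ) : DS S u f N ≤ N * δ := by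
  unfold DS
  calc ∑ i ∈ Finset.range N, D S u (f i) (f (i + 1)) ≤ ∑ _i ∈ Finset.range N, δ :=
        Finset.sum_le_sum fun i hi => h i (Finset.mem_range.1 hi)
    _ = N * δ := by simp

/-- The last part of a chain. -/
private theorem SgB_tail {S : E n → E n → ℝ} {u : E n → ℝ} {M Λ : ℝ} (hu : Sub S u M Λ)
    (f : ℕ → E n) (p q : ℕ) : DS S u (fun l => f (p + l)) q ≤ DS S u f (p + q) := by
  have h0 := DS_nonneg hu f p
  unfold DS at h0 ⊢
  rw [Finset.sum_range_add]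
  have h1 : ∀ i, D S u (f (p + i)) (f (p + (i + 1))) = D S u (f (p + i)) (f (p + i + 1)) := by
    intro i
    rw [add_assoc]
  simp only [h1]
  linarith

theorem edge2 {S : E n → E n → ℝ} {u : E n → ℝ} {M Λ : ℝ} (hu : Sub S u M Λ) {q W : ℕ} {V C : ℝ}
    {i₀ : Fin n} (hq : 0 < q) (hU : Uni S u q V C W i₀) (hC : 1 ≤ C) {ε : ℝ} (hε : 0 < ε)
    (hε1 : 2 * ε ≤ 1) {g : ℕ → E n} {a b : ℕ}
    (hD : ∀ i, a ≤ i → i < b → D S u (g i) (g (i + 1)) ≤ ε ^ 2 / ((W + 4) * q))
    {t t' : ℕ} (ht : a + q ≤ t) (htt : t + 2 * q ≤ t') (htt' : t' ≤ t + (W + 2) * q)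
    (htb : t' + q ≤ b) {y y' : E n} (hy : ‖y - g t‖ ≤ 2 * ε) (hy' : ‖y' - g t'‖ ≤ 2 * ε) :
    Eg S u q W (20 * C * ε ^ 2) y y' := by
  set δ : ℝ := ε ^ 2 / ((W + 4) * q) with hδ
  have hqR : (1 : ℝ) ≤ q := by exact_mod_cast hq
  have hWR : (0 : ℝ) ≤ W := Nat.cast_nonneg W
  have hε2 : 0 < ε ^ 2 := by positivity
  have hδ0 : 0 ≤ δ := by positivity
  have hδq : (q : ℝ) * δ * (W + 4) = ε ^ 2 := by
    rw [hδ]
    field_simp
  have hδ4 : (q : ℝ) * δ * 4 ≤ ε ^ 2 := by
    have h1 : 0 ≤ (q : ℝ) * δ * W := by positivity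
    nlinarith
  have hε3 : ε ^ 2 ≤ 1 / 4 := by nlinarith
  -- moving a marked point
  have key : ∀ s : ℕ, a + q ≤ s → s + q ≤ b → ∀ z : E n, ‖z - g s‖ ≤ 2 * ε →
      ∃ f : ℕ → E n, f 0 = g (s - q) ∧ f q = z ∧ f (2 * q) = g (s + q) ∧
        DS S u f (2 * q) ≤ 5 * C * ε ^ 2 := by
    intro s hs1 hs2 z hz
    have h1 : DS S u (fun l => g (s - q + l)) (2 * q) ≤ (2 * q : ℕ) * δ := by
      refine SgB_le fun i hi => ?_
      have h2 := hD (s - q + i) (by omega) (by omega)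
      simpa only [add_assoc] using h2
    have h1' : DS S u (fun l => g (s - q + l)) (2 * q) ≤ ε ^ 2 / 2 := by
      refine h1.trans ?_
      push_cast
      nlinarith
    obtain ⟨f, hf0, hfq, hf2, hf⟩ := hU.move (fun l => g (s - q + l)) (z - g s)
      (hz.trans hε1) (h1'.trans (by linarith))
    have h3 : s - q + q = s := by omega
    have h4 : s - q + 2 * q = s + q := by omega
    refine ⟨f, ?_, ?_, ?_, ?_⟩
    · simpa using hf0
    · rw [hfq]
      simp only [h3]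
      abel
    · rw [hf2]
      simp only [h4]
    · refine hf.trans ?_
      have h5 : ‖z - g s‖ ^ 2 ≤ (2 * ε) ^ 2 := by
        have := norm_nonneg (z - g s)
        gcongr
      have h6 : C * ‖z - g s‖ ^ 2 ≤ C * (2 * ε) ^ 2 := by
        gcongr
      nlinarith
  obtain ⟨f, hf0, hfq, hf2, hf⟩ := key t ht (by omega) y hy
  obtain ⟨f', hf0', hfq', hf2', hf'⟩ := key t' (by omega) htb y' hy'
  -- the middle part
  have hm : DS S u (fun l => g (t + q + l)) (t' - t - 2 * q) ≤ ε ^ 2 := by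
    have h1 : DS S u (fun l => g (t + q + l)) (t' - t - 2 * q) ≤ (t' - t - 2 * q : ℕ) * δ := by
      refine SgB_le fun i hi => ?_
      have h2 := hD (t + q + i) (by omega) (by omega)
      simpa only [add_assoc] using h2
    have h3 : ((t' - t - 2 * q : ℕ) : ℝ) ≤ (W + 4) * q := by
      have h4 : t' - t - 2 * q ≤ (W + 4) * q := by
        have h5 : (W + 4) * q = (W + 2) * q + 2 * q := by ring
        omega
      exact_mod_cast h4
    refine h1.trans ?_
    calc ((t' - t - 2 * q : ℕ) : ℝ) * δ ≤ (W + 4) * q * δ := by gcongr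
      _ = ε ^ 2 := by rw [← hδq]; ring
  have ht1 : DS S u (fun l => f (q + l)) q ≤ 5 * C * ε ^ 2 := by
    have h1 := SgB_tail hu f q q
    have h2 : q + q = 2 * q := by ring
    rw [h2] at h1
    exact h1.trans hf
  have ht2 : DS S u f' q ≤ 5 * C * ε ^ 2 := (DS_mono hu f' (by omega)).trans hf'
  have e1 : (fun l => f (q + l)) q = (fun l => g (t + q + l)) 0 := by
    have h2 : q + q = 2 * q := by ring
    change f (q + q) = g (t + q + 0)
    rw [h2, hf2, add_zero]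
  obtain ⟨c, hc0, hc1, hc2⟩ := cat2 (S := S) (u := u) (m₁ := q)
    (m₂ := t' - t - 2 * q) (a₁ := fun l => f (q + l)) (a₂ := fun l => g (t + q + l)) e1
  have e2 : c (q + (t' - t - 2 * q)) = f' 0 := by
    rw [hc1, hf0']
    change g (t + q + (t' - t - 2 * q)) = g (t' - q)
    congr 1
    omega
  obtain ⟨d, hd0, hd1, hd2⟩ := cat2 (S := S) (u := u)
    (m₁ := q + (t' - t - 2 * q)) (m₂ := q) (a₁ := c) (a₂ := f') e2
  refine ⟨q + (t' - t - 2 * q) + q, d, by omega, ?_, ?_, ?_, ?_⟩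
  · have h5 : t' ≤ t + (W + 2) * q := htt'
    omega
  · rw [hd0, hc0]
    change f (q + 0) = y
    rw [add_zero, hfq]
  · rw [hd1, hfq']
  · rw [hd2, hc2]
    nlinarith

end Pool.Agent.H99.EA
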