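import Pool.Agent.H99.EA.SgA
import Pool.Agent.H99.EA.SgB
import Pool.Agent.H99.EC.Walk
import Pool.Agent.H68.HD.D2

/-!
# EA Seg: the drift along a segment of small defect near the Aubry set is bounded

Short segments (`b < a + (W + 2) q`) and the ends: every step has defect `≤ 1`, so its length is `≤ R` (see `step_bound` in HD).  Long segments: `marks`
(Mk t = `g t` is `2 ε`-near a point of `Slab F i₀ s ε` + integer vector; `window`), points `y j`; `edge2` gives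
`Eg S u q W (20 C ε²) (y j) (y (j + 1))`; `Pool.Agent.H99.EC.walk` with `σ = 0`, `P = Eg ..` (`eg_per`), the finite set `Slab F i₀ s ε`,
`C₀ = ‖θ‖ (W + 2) q R` (a chain of `≤ (W + 2) q` steps, each of defect `≤ 20 C ε² ≤ 1`).
-/

set_option autoImplicit false

open MeasureTheory Filter
open scoped RealInnerProductSpace

namespace Pool.Agent.H99.EA

open Pool.Agent.H33.AM (E Tor pr IsPeriodic)
open Pool.Agent.H68.HD
open Pool.Agent.H99.EC (D DS)

variable {n : ℕ}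

private theorem seg_path {f : ℕ → E n} {R : ℝ} (m : ℕ) (h : ∀ i < m, ‖f (i + 1) - f i‖ ≤ R) :
    ‖f m - f 0‖ ≤ m * R := by
  induction m with
  | zero => simp
  | succ m ih =>
    have h1 := ih fun i hi => h i (by omega)
    have h2 := h m (by omega)
    have h3 : f (m + 1) - f 0 = (f m - f 0) + (f (m + 1) - f m) := by abel
    rw [h3]
    refine (norm_add_le _ _).trans ?_
    push_cast
    linarith

private theorem seg_inner {θ v : E n} {r : ℝ} (h : ‖v‖ ≤ r) : ⟪θ, v⟫ ≤ ‖θ‖ * r :=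
  (real_inner_le_norm _ _).trans (mul_le_mul_of_nonneg_left h (norm_nonneg _))

private theorem seg_D_le {S : E n → E n → ℝ} {u : E n → ℝ} {M Λ : ℝ} (hu : Sub S u M Λ)
    {a : ℕ → E n} {m i : ℕ} (hi : i < m) : D S u (a i) (a (i + 1)) ≤ DS S u a m :=
  Finset.single_le_sum (f := fun i => D S u (a i) (a (i + 1))) (fun _ _ => Pool.Agent.H99.EC.D_nonneg hu _ _)
    (Finset.mem_range.2 hi)

theorem seg {S : E n → E n → ℝ} {a b κ K : ℝ} (hS : Pot S a b κ K) {u : E n → ℝ} {M Λ : ℝ}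
    (hu : Sub S u M Λ) {q W : ℕ} {V C : ℝ} {i₀ : Fin n} (hq : 0 < q) (hU : Uni S u q V C W i₀)
    (hC : 1 ≤ C) {ε : ℝ} (hε : 0 < ε) (hε2 : 20 * C * ε ^ 2 ≤ 1) (hV : V / q ≤ ε)
    (F : Finset (E n)) (s : ℝ) {θ : E n}
    (hloop : ∀ f k z, Cl f k z → k ≤ (Slab F i₀ s ε).card →
      (∀ i < k, Eg S u q W (20 * C * ε ^ 2) (f i) (f (i + 1))) → ⟪θ, zv z⟫ ≤ 0) :
    ∃ c₂ : ℝ, 0 ≤ c₂ ∧ ∀ (g : ℕ → E n) (a b : ℕ), a ≤ b →
      (∀ i, a ≤ i → i < b → D S u (g i) (g (i + 1)) ≤ ε ^ 2 / ((W + 4) * q)) →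
      (∀ i, a ≤ i → i ≤ b → ∃ v ∈ F, ∃ z, ‖g i - (v + zv z)‖ ≤ 2 * ε) →
      ⟪θ, g b - g a⟫ ≤ c₂ := by
  classical
  obtain ⟨R, hR0, hR⟩ := step_bound hS hu
  have hε1 : ε ≤ 1 / 2 := by nlinarith
  have hε3 : ε ^ 2 ≤ 1 := by nlinarith
  have hqr : (1 : ℝ) ≤ q := by exact_mod_cast hq
  have hW0 : (0 : ℝ) ≤ W := Nat.cast_nonneg W
  have hsmall : ε ^ 2 / ((W + 4) * q) ≤ 1 := by
    rw [div_le_one (by positivity)]
    nlinarith
  obtain ⟨C₀, hC₀⟩ : ∃ C₀ : ℝ, C₀ = ‖θ‖ * (((W : ℝ) + 3) * q * R) := ⟨_, rfl⟩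
  have hC₀0 : 0 ≤ C₀ := by
    rw [hC₀]
    positivity
  -- a bound for a part of the chain
  have hpart : ∀ (g : ℕ → E n) (c m : ℕ),
      (∀ i < m, D S u (g (c + i)) (g (c + i + 1)) ≤ 1) → m ≤ (W + 3) * q →
      ⟪θ, g (c + m) - g c⟫ ≤ C₀ := by
    intro g c m h1 h2
    have h3 := seg_path (f := fun l => g (c + l)) (R := R) m fun i hi => hR _ _ (h1 i hi)
    have h4 : (m : ℝ) ≤ ((W : ℝ) + 3) * q := by exact_mod_cast h2
    have h5 : ‖g (c + m) - g c‖ ≤ ((W : ℝ) + 3) * q * R :=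
      h3.trans (mul_le_mul_of_nonneg_right h4 hR0)
    rw [hC₀]
    exact seg_inner h5
  have hPC : ∀ x y, Eg S u q W (20 * C * ε ^ 2) x y → ⟪θ, y - x⟫ + 0 ≤ C₀ := by
    rintro x y ⟨m, a, -, hm, rfl, rfl, hDS⟩
    have h1 := hpart a 0 m (fun i hi => by
      rw [Nat.zero_add]
      exact ((seg_D_le hu hi).trans hDS).trans hε2) (hm.trans (Nat.mul_le_mul_right _ (by omega)))
    rw [Nat.zero_add] at h1
    linarith
  have hloop' : ∀ f k z, Cl f k z → k ≤ (Slab F i₀ s ε).card →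
      (∀ i < k, Eg S u q W (20 * C * ε ^ 2) (f i) (f (i + 1))) → ⟪θ, zv z⟫ + 0 * (k : ℝ) ≤ 0 := by
    intro f k z h1 h2 h3
    have := hloop f k z h1 h2 h3
    linarith
  refine ⟨((Slab F i₀ s ε).card : ℝ) * C₀ + 2 * C₀ + 2 * (‖θ‖ * (2 * ε)), by positivity,
    fun g a b hab hD hF => ?_⟩
  have hD1 : ∀ i, a ≤ i → i < b → D S u (g i) (g (i + 1)) ≤ 1 := fun i h1 h2 =>
    (hD i h1 h2).trans hsmall
  have hpart' : ∀ c d : ℕ, a ≤ c → c ≤ d → d ≤ b → d ≤ c + (W + 3) * q →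
      ⟪θ, g d - g c⟫ ≤ C₀ := by
    intro c d h1 h2 h3 h4
    obtain ⟨m, rfl⟩ : ∃ m, d = c + m := ⟨d - c, by omega⟩
    exact hpart g c m (fun i hi => hD1 (c + i) (by omega) (by omega)) (by omega)
  have hcard : (0 : ℝ) ≤ ((Slab F i₀ s ε).card : ℝ) * C₀ := by positivity
  have hθε : 0 ≤ ‖θ‖ * (2 * ε) := by positivity
  rcases Nat.lt_or_ge b (a + (W + 2) * q) with hb | hb
  · have h1 : (W + 2) * q ≤ (W + 3) * q := Nat.mul_le_mul_right _ (by omega)
    have h2 := hpart' a b le_rfl hab le_rfl (by omega)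
    linarith
  · obtain ⟨N, t, ht0, ht0', hMk, hstep, hN, hN'⟩ := marks
      (Mk := fun t => ∃ v ∈ Slab F i₀ s ε, ∃ z, ‖g t - (v + zv z)‖ ≤ 2 * ε) (W := W) hq hb
      (fun i hi hib => window hq hU hε (by linarith) hV F s hD hF i hi hib)
    have hmono : ∀ j j', j ≤ j' → j' ≤ N → t j ≤ t j' := by
      intro j j' hj
      induction j', hj using Nat.le_induction with
      | base => intro _; exact le_rfl
      | succ j' _ ih =>
        intro h
        have h1 := ih (by omega)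
        have h2 := (hstep j' (by omega)).1
        omega
    have hex : ∀ j, ∃ y, j ≤ N → (∃ v ∈ Slab F i₀ s ε, ∃ z, y = v + zv z) ∧
        ‖y - g (t j)‖ ≤ 2 * ε := by
      intro j
      by_cases hj : j ≤ N
      · obtain ⟨v, hv, z, hz⟩ := hMk j hj
        refine ⟨v + zv z, fun _ => ⟨⟨v, hv, z, rfl⟩, ?_⟩⟩
        rw [norm_sub_rev]
        exact hz
      · exact ⟨0, fun h => absurd h hj⟩
    choose y hy using hex
    have hwalk := Pool.Agent.H99.EC.walk (P := fun x y => Eg S u q W (20 * C * ε ^ 2) x y)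
      (fun x y z hxy => eg_per hS hu z hxy) (Slab F i₀ s ε) (σ := 0) hC₀0 hPC hloop' N y
      (fun j hj => (hy j hj).1) (fun j hj => by
        have h0 := hmono 0 j (Nat.zero_le _) hj.le
        have h1 := hmono (j + 1) N hj le_rfl
        obtain ⟨h2, h3⟩ := hstep j hj
        exact edge2 hu hq hU hC hε (by linarith) hD (by omega) h2 h3 (by omega) (hy j hj.le).2
          (hy (j + 1) hj).2)
    have h0N := hmono 0 N (Nat.zero_le _) le_rfl
    have e1 : (W + 1) * q ≤ (W + 3) * q := Nat.mul_le_mul_right _ (by omega)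
    have h1 := hpart' a (t 0) le_rfl (by omega) (by omega) (by omega)
    have h2 := hpart' (t N) b (by omega) (by omega) le_rfl hN'
    have h3 := seg_inner (θ := θ) (hy 0 (Nat.zero_le _)).2
    have h4 : ‖g (t N) - y N‖ ≤ 2 * ε := by
      rw [norm_sub_rev]
      exact (hy N le_rfl).2
    have h5 := seg_inner (θ := θ) h4
    have e2 : g b - g a = (g b - g (t N)) + (g (t N) - y N) + (y N - y 0) + (y 0 - g (t 0)) +
        (g (t 0) - g a) := by abel
    rw [e2, inner_add_right, inner_add_right, inner_add_right, inner_add_right]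
    linarith

end Pool.Agent.H99.EA
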