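import Pool.Agent.H99.EA.Mrk

/-!
# EA SgA: marked indices in every window

`adv` for the chain `fun l => g (i + l)`: its defect over `W q` steps is `≤ W q ε² / ((W + 4) q) ≤ 1`, so `|g (i + W q) i₀ - g i i₀| ≥ 1`.
A step has defect `≤ ε² / ((W + 4) q) ≤ 1/q`, so `speed`, `V/q ≤ ε` give `|g (l+1) i₀ - g l i₀| ≤ ε`.  `cross`: `t` with `|g t i₀ - (s + j)| ≤ ε`.
`‖g t - (v + zv z)‖ ≤ 2 ε`, `v ∈ F`: `|v i₀ - (s + (j - z i₀))| ≤ 3 ε`, so `v ∈ Slab F i₀ s ε`.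
-/

set_option autoImplicit false

open MeasureTheory Filter
open scoped RealInnerProductSpace

namespace Pool.Agent.H99.EA

open Pool.Agent.H33.AM (E Tor pr IsPeriodic)
open Pool.Agent.H68.HD
open Pool.Agent.H99.EC (D DS)

variable {n : ℕ}

private theorem sga_DS_le {S : E n → E n → ℝ} {u : E n → ℝ} {f : ℕ → E n} {δ : ℝ} (m : ℕ)
    (h : ∀ i < m, D S u (f i) (f (i + 1)) ≤ δ) : DS S u f m ≤ m * δ := by
  unfold DS
  refine (Finset.sum_le_sum fun i hi => h i (Finset.mem_range.1 hi)).trans ?_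
  rw [Finset.sum_const, Finset.card_range, nsmul_eq_mul]

private theorem sga_coord (v w : E n) (i₀ : Fin n) : |v i₀ - w i₀| ≤ ‖v - w‖ :=
  PiLp.norm_apply_le (v - w) i₀

theorem window {S : E n → E n → ℝ} {u : E n → ℝ} {q W : ℕ} {V C : ℝ} {i₀ : Fin n} (hq : 0 < q)
    (hU : Uni S u q V C W i₀) {ε : ℝ} (hε : 0 < ε) (hε1 : ε ≤ 1) (hV : V / q ≤ ε)
    (F : Finset (E n)) (s : ℝ) {g : ℕ → E n} {a b : ℕ}
    (hD : ∀ i, a ≤ i → i < b → D S u (g i) (g (i + 1)) ≤ ε ^ 2 / ((W + 4) * q))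
    (hF : ∀ i, a ≤ i → i ≤ b → ∃ v ∈ F, ∃ z, ‖g i - (v + zv z)‖ ≤ 2 * ε)
    (i : ℕ) (hai : a ≤ i) (hib : i + W * q ≤ b) :
    ∃ t, i ≤ t ∧ t ≤ i + W * q ∧ ∃ v ∈ Slab F i₀ s ε, ∃ z, ‖g t - (v + zv z)‖ ≤ 2 * ε := by
  have hq0 : (0 : ℝ) < q := by exact_mod_cast hq
  have hq1 : (1 : ℝ) ≤ q := by exact_mod_cast hq
  have hW0 : (0 : ℝ) ≤ W := Nat.cast_nonneg _
  have hε2 : ε ^ 2 ≤ 1 := by nlinarith
  obtain ⟨δ, hδ⟩ : ∃ δ : ℝ, δ = ε ^ 2 / ((W + 4) * q) := ⟨_, rfl⟩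
  have hδ1 : ((W * q : ℕ) : ℝ) * δ ≤ 1 := by
    rw [hδ, mul_div_assoc', div_le_one (by positivity)]
    push_cast
    have h1 : (W : ℝ) * q * ε ^ 2 ≤ W * q * 1 := mul_le_mul_of_nonneg_left hε2 (by positivity)
    nlinarith
  have hδ2 : δ ≤ 1 / q := by
    rw [hδ, div_le_div_iff₀ (by positivity) hq0]
    have h1 : ε ^ 2 * q ≤ 1 * q := mul_le_mul_of_nonneg_right hε2 hq0.le
    nlinarith
  have hD' : ∀ l < W * q, D S u (g (i + l)) (g (i + l + 1)) ≤ δ := by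
    intro l hl
    rw [hδ]
    exact hD (i + l) (by omega) (by omega)
  have h1 : 1 ≤ |g (i + W * q) i₀ - g i i₀| := by
    have h2 := hU.adv (fun l => g (i + l)) ((sga_DS_le (W * q) (fun l hl => hD' l hl)).trans hδ1)
    simpa using h2
  obtain ⟨t, ht, j, hj⟩ := cross (f := fun l => g (i + l) i₀) (m := W * q) s (fun l hl => by
    have h2 := hU.speed _ _ ((hD' l hl).trans hδ2)
    exact ((sga_coord _ _ i₀).trans h2).trans hV) (by simpa using h1)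
  obtain ⟨v, hv, z, hz⟩ := hF (i + t) (by omega) (by omega)
  refine ⟨i + t, by omega, by omega, v, ?_, z, hz⟩
  rw [mem_slab]
  refine ⟨hv, j - z i₀, ?_⟩
  have h3 : |g (i + t) i₀ - (v + zv z) i₀| ≤ 2 * ε := (sga_coord _ _ i₀).trans hz
  have h4 : (v + zv z) i₀ = v i₀ + z i₀ := by simp [zv]
  rw [h4] at h3
  have h5 : v i₀ - (s + ((j - z i₀ : ℤ) : ℝ)) =
      (g (i + t) i₀ - (s + j)) - (g (i + t) i₀ - (v i₀ + z i₀)) := by
    push_cast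
    ring
  rw [h5]
  calc _ ≤ |g (i + t) i₀ - (s + j)| + |g (i + t) i₀ - (v i₀ + z i₀)| := abs_sub _ _
    _ ≤ _ := by
      have h6 : |g (i + t) i₀ - (s + j)| ≤ ε := hj
      linarith

end Pool.Agent.H99.EA
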