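import Pool.Agent.H99.EA.Def
import Pool.Agent.H68.HDA.Uni
import Pool.Agent.H68.HDA.Sho
import Pool.Agent.H68.HD.S2

/-!
# EA Spd: uniform oscillation and speed

`osc_sol`: `sub_unit` (HDA.Uni): `u y - u x ≤ Sp L c (alpha L c) x y`; by `per` we may replace `y` by `y + zv z` with
`‖y + zv z - x‖ ≤ √n` (`exists_near`), where `Sp ≤ M` (`pot`, `Pot.ub`).
`speed`: `Sq_lb` and `short_ub` (HDA.Sho): with `w = y - x`: `κ/2 q ‖w‖² - A/q ≤ Sq x y = D + u y - u x ≤ 1/q + C (‖w‖ + 1/q)`; multiply by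
`q`, `r = q ‖w‖`: `κ/2 r² ≤ A + 1 + C + C r`, so `r ≤ V`.
-/

set_option autoImplicit false

open MeasureTheory Filter
open scoped RealInnerProductSpace

namespace Pool.Agent.H99.EA

open Pool.Agent.H33.AM (E Tor pr IsPeriodic)
open Pool.Agent.H68.HD
open Pool.Agent.H68.HDA (Aut Lq)
open Pool.Agent.H99.EC (D DS)

variable {n : ℕ}

theorem osc_sol {L : E n → E n → ℝ → ℝ} {κ K : ℝ} (hL : Growth L κ K) (ha : Aut L) (c : E n) :
    ∃ B : ℝ, 0 ≤ B ∧ ∀ q : ℕ, 0 < q → ∀ u : E n → ℝ, Sol (Sq L c q) u → ∀ x y, u y - u x ≤ B := by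
  obtain ⟨a, b, κ', K', hS⟩ := pot hL c (alpha L c)
  obtain ⟨M, hM⟩ := hS.ub (Real.sqrt n)
  refine ⟨max M 0, le_max_right _ _, fun q hq u hu x y => ?_⟩
  obtain ⟨z, hz, -⟩ := exists_near (y - x)
  have h1 := Pool.Agent.H68.HDA.sub_unit hL ha hq c (alpha L c) hu.sub x (y + zv z)
  rw [hu.per] at h1
  have h2 : ‖y + zv z - x‖ ≤ Real.sqrt n := by
    rw [show y + zv z - x = y - x + zv z by abel]
    exact hz
  exact (h1.trans (hM _ _ h2)).trans (le_max_left _ _)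

theorem speed {L : E n → E n → ℝ → ℝ} {κ K : ℝ} (hL : Growth L κ K) (c : E n) :
    ∃ V : ℝ, 1 ≤ V ∧ ∀ q : ℕ, 0 < q → ∀ u : E n → ℝ, Sol (Sq L c q) u →
      ∀ x y, D (Sq L c q) u x y ≤ 1 / q → ‖y - x‖ ≤ V / q := by
  obtain ⟨C, hC, hub⟩ := Pool.Agent.H68.HDA.short_ub hL c (alpha L c)
  have hκ := hL.pos
  obtain ⟨A, hA⟩ : ∃ A : ℝ, A = |K + ‖c‖ ^ 2 / (2 * κ) - alpha L c| := ⟨_, rfl⟩
  have hA0 : 0 ≤ A := by
    rw [hA]
    exact abs_nonneg _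
  have hV0 : 0 ≤ 2 / κ * (A + 1 + 2 * C) := by positivity
  refine ⟨1 + 2 / κ * (A + 1 + 2 * C), by linarith, fun q hq u hu x y hD => ?_⟩
  have hq0 : (0 : ℝ) < q := Nat.cast_pos.2 hq
  have h1 := Pool.Agent.H68.HDA.Sq_lb hL hq c (alpha L c) x y
  have h2 := hub q hq u hu.sub x y
  have h3 : Sp (Lq q L) c (alpha L c / q) x y - u y + u x ≤ 1 / q := hD
  rw [← hA] at h1
  rw [le_div_iff₀ hq0]
  obtain ⟨r, hr⟩ : ∃ r : ℝ, r = ‖y - x‖ * q := ⟨_, rfl⟩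
  rw [← hr]
  have hw : ‖y - x‖ = r / q := by
    rw [hr]
    field_simp
  have h4 : κ / 2 * q * ‖y - x‖ ^ 2 - A / q ≤ 1 / q + C * (‖y - x‖ + 1 / q) := by linarith
  have h5 : κ / 2 * r ^ 2 ≤ A + 1 + C + C * r := by
    have h6 := mul_le_mul_of_nonneg_right h4 hq0.le
    have e1 : (κ / 2 * q * ‖y - x‖ ^ 2 - A / q) * q = κ / 2 * r ^ 2 - A := by
      rw [hw]
      field_simp
    have e2 : (1 / q + C * (‖y - x‖ + 1 / q)) * (q : ℝ) = 1 + C * r + C := by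
      rw [hw]
      field_simp
      ring
    rw [e1, e2] at h6
    linarith
  by_contra hcon
  push Not at hcon
  have hr1 : 1 ≤ r := by linarith
  have h7 : κ / 2 * (1 + 2 / κ * (A + 1 + 2 * C)) = κ / 2 + (A + 1 + 2 * C) := by
    field_simp
  have h8 : κ / 2 + (A + 1 + 2 * C) < κ / 2 * r := by
    rw [← h7]
    exact mul_lt_mul_of_pos_left hcon (by positivity)
  have h9 : (κ / 2 + (A + 1 + 2 * C)) * r < κ / 2 * r * r :=
    mul_lt_mul_of_pos_right h8 (by linarith)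
  have h10 : (A + 1 + C) * 1 ≤ (A + 1 + C) * r := mul_le_mul_of_nonneg_left hr1 (by linarith)
  have h11 : 0 ≤ κ / 2 * r := by positivity
  nlinarith

end Pool.Agent.H99.EA
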